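import Pool.Agent.Lib.MP_0a002e_co_h20.Stable

/-!
The counting argument and the one-sided theorem (helper20, MP_0a002e_co).
-/

open Finset
open scoped Classical

namespace Pool.MP0a002eH20

variable {V : Type*} [Fintype V]

theorem not_out {Z : Finset V} {s : ℕ} {T : V → V → Prop} {z : V} :
    ¬ Out Z s T z ↔ ∃ A ∈ tight Z s T, z ∈ A := by
  unfold Out
  push Not
  rfl

theorem near_union_tight {D : V → V → Prop} {Z : Finset V} {s : ℕ} {T : V → V → Prop}
    (hT : Good D Z s T) {A X : Finset V} (hA : A ∈ tight Z s T)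
    (hne : (A ∩ X).Nonempty) {c : ℕ} (hc : (Nin T X).card ≤ c) :
    (Nin T (A ∪ X)).card ≤ c := by
  have h1 := mem_tight.1 hA
  have h2 := submod T A X
  have h3 := hT.ge (A ∩ X) (inter_subset_left.trans h1.1) hne
  omega

theorem tight_union {D : V → V → Prop} {Z : Finset V} {s : ℕ} {T : V → V → Prop}
    (hT : Good D Z s T) {A X : Finset V} (hA : A ∈ tight Z s T) (hX : X ∈ tight Z s T)
    (hne : (A ∩ X).Nonempty) : A ∪ X ∈ tight Z s T := by
  have h1 := mem_tight.1 hA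
  have h2 := mem_tight.1 hX
  rw [mem_tight]
  exact ⟨union_subset h1.1 h2.1, h1.2.1.mono subset_union_left,
    near_union_tight hT hA hne h2.2.2⟩

theorem exists_largest {D : V → V → Prop} {Z : Finset V} {s : ℕ} {T : V → V → Prop}
    (hT : Good D Z s T) {z : V} (hz : ¬ Out Z s T z) :
    ∃ A ∈ tight Z s T, z ∈ A ∧ ∀ Y ∈ tight Z s T, z ∈ Y → Y ⊆ A := by
  rw [not_out] at hz
  obtain ⟨A0, hA0, hzA0⟩ := hz
  obtain ⟨A, hA, hmax⟩ := exists_max_image ((tight Z s T).filter (fun X => z ∈ X))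
    (fun X => X.card) ⟨A0, mem_filter.2 ⟨hA0, hzA0⟩⟩
  rw [mem_filter] at hA
  refine ⟨A, hA.1, hA.2, ?_⟩
  intro Y hY hzY
  have h1 := tight_union hT hA.1 hY ⟨z, mem_inter.2 ⟨hA.2, hzY⟩⟩
  have h2 := hmax (A ∪ Y) (mem_filter.2 ⟨h1, mem_union_left _ hA.2⟩)
  have h3 := eq_of_subset_of_card_le (subset_union_left (s₁ := A) (s₂ := Y)) h2
  rw [h3]
  exact subset_union_right

/-- near-tight sets above `A` with a vertex not dominated by `A` -/
noncomputable def Kset (s : ℕ) (T : V → V → Prop) (R A : Finset V) : Finset (Finset V) :=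
  R.powerset.filter (fun W => (Nin T W).card ≤ s + 1 ∧ A ⊆ W ∧ ∃ u ∈ W, u ∉ A ∧ u ∉ Nin T A)

theorem mem_Kset {s : ℕ} {T : V → V → Prop} {R A W : Finset V} :
    W ∈ Kset s T R A ↔ W ⊆ R ∧ (Nin T W).card ≤ s + 1 ∧ A ⊆ W ∧
      ∃ u ∈ W, u ∉ A ∧ u ∉ Nin T A := by
  simp [Kset]

/-- the assignment of a near-tight set to a vertex -/
structure Asg (Z : Finset V) (s : ℕ) (T : V → V → Prop) (R : Finset V) (z : V)
    (X : Finset V) : Prop where
  mem : z ∈ X
  sub : X ⊆ R
  near : (Nin T X).card ≤ s + 1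
  absT : ∀ B ∈ tight Z s T, (B ∩ X).Nonempty → B ⊆ X
  absN : ∀ B ⊆ R, (Nin T B).card ≤ s + 1 → ∀ q ∈ B, q ∈ X → Out Z s T q → B ⊆ X
  cas : Out Z s T z ∨ ∃ A ∈ tight Z s T, z ∈ A ∧ (∀ Y ∈ tight Z s T, z ∈ Y → Y ⊆ A) ∧
    A ⊆ X ∧ ∀ W ∈ Kset s T R A, X ∈ Kset s T R A ∧
      ∀ W' ∈ Kset s T R A, X ⊆ W' → W' = X

theorem exists_asg {D : V → V → Prop} {Z : Finset V} {s : ℕ} {T : V → V → Prop}
    (hT : Good D Z s T) {R : Finset V} (hRZ : R ⊆ Z) (hU : ∀ A ∈ tight Z s T, A ⊆ R)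
    {z : V} (hz : Out Z s T z → ∃ M ⊆ R, z ∈ M ∧ (Nin T M).card ≤ s + 1) :
    ∃ X, Asg Z s T R z X := by
  by_cases hout : Out Z s T z
  · obtain ⟨M, hMR, hzM, hMc⟩ := hz hout
    obtain ⟨X, hX, hmax⟩ := exists_max_image
      (R.powerset.filter (fun X => z ∈ X ∧ (Nin T X).card ≤ s + 1)) (fun X => X.card)
      ⟨M, by simp only [mem_filter, mem_powerset]; exact ⟨hMR, hzM, hMc⟩⟩
    simp only [mem_filter, mem_powerset] at hX hmax
    have habs : ∀ B ⊆ R, (Nin T (B ∪ X)).card ≤ s + 1 → B ⊆ X := by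
      intro B hB hc
      have h1 := hmax (B ∪ X) ⟨union_subset hB hX.1, mem_union_right _ hX.2.1, hc⟩
      have h2 := eq_of_subset_of_card_le (subset_union_right (s₁ := B) (s₂ := X)) h1
      rw [h2]
      exact subset_union_left
    refine ⟨X, hX.2.1, hX.1, hX.2.2, ?_, ?_, Or.inl hout⟩
    · intro B hB hne
      exact habs B (hU B hB) (near_union_tight hT hB hne hX.2.2)
    · intro B hB hc q hqB hqX hq
      exact habs B hB (hq.inter (hB.trans hRZ) hqB (hX.1.trans hRZ) hqX hc hX.2.2).2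
  · obtain ⟨A, hA, hzA, hAmax⟩ := exists_largest hT hout
    by_cases hK : (Kset s T R A).Nonempty
    · obtain ⟨X, hX, hmax⟩ := exists_max_image (Kset s T R A) (fun X => X.card) hK
      have hX' := mem_Kset.1 hX
      obtain ⟨hXR, hXc, hAX, u, huX, huA, huN⟩ := hX'
      have habs : ∀ B ⊆ R, (Nin T (B ∪ X)).card ≤ s + 1 → B ⊆ X := by
        intro B hB hc
        have h1 := hmax (B ∪ X) (mem_Kset.2 ⟨union_subset hB hXR, hc,
          hAX.trans subset_union_right, u, mem_union_right _ huX, huA, huN⟩)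
        have h2 := eq_of_subset_of_card_le (subset_union_right (s₁ := B) (s₂ := X)) h1
        rw [h2]
        exact subset_union_left
      refine ⟨X, hAX hzA, hXR, hXc, ?_, ?_, Or.inr ⟨A, hA, hzA, hAmax, hAX, ?_⟩⟩
      · intro B hB hne
        exact habs B (hU B hB) (near_union_tight hT hB hne hXc)
      · intro B hB hc q hqB hqX hq
        exact habs B hB (hq.inter (hB.trans hRZ) hqB (hXR.trans hRZ) hqX hc hXc).2
      · intro W hW
        refine ⟨hX, ?_⟩
        intro W' hW' hsub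
        exact (eq_of_subset_of_card_le hsub (hmax W' hW')).symm
    · have hA' := mem_tight.1 hA
      refine ⟨A, hzA, hU A hA, by omega, ?_, ?_, Or.inr ⟨A, hA, hzA, hAmax, Subset.rfl, ?_⟩⟩
      · intro B hB hne
        have h1 := tight_union hT hB hA hne
        exact subset_union_left.trans (hAmax _ h1 (mem_union_right _ hzA))
      · intro B hB hc q hqB hqA hq
        exact absurd hqA (hq A hA)
      · intro W hW
        exact absurd ⟨W, hW⟩ hK

/-- the key property of the assignment -/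
theorem Asg.star {D : V → V → Prop} {Z : Finset V} {s : ℕ} {T : V → V → Prop}
    (hT : Good D Z s T) {R : Finset V} (hRZ : R ⊆ Z) {z v : V} {X Y : Finset V}
    (hX : Asg Z s T R z X) (hY : Asg Z s T R v Y) (hvX : v ∉ X) (hzY : z ∈ Y) :
    v ∈ Nin T X := by
  rcases hX.cas with hout | ⟨A, hA, hzA, hAmax, hAX, hK⟩
  · exact absurd (hX.absN Y hY.sub hY.near z hzY hX.mem hout hY.mem) hvX
  · by_contra hvN
    have hAY : A ⊆ Y := hY.absT A hA ⟨z, mem_inter.2 ⟨hzA, hzY⟩⟩
    have hvA : v ∉ A := fun h => hvX (hAX h)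
    have hvNA : v ∉ Nin T A := by
      intro h
      rw [mem_Nin] at h
      obtain ⟨-, x, hx, hTx⟩ := h
      exact hvN (mem_Nin.2 ⟨hvX, x, hAX hx, hTx⟩)
    have hYK : Y ∈ Kset s T R A :=
      mem_Kset.2 ⟨hY.sub, hY.near, hAY, v, hY.mem, hvA, hvNA⟩
    obtain ⟨hXK, hXmax⟩ := hK Y hYK
    have hA' := mem_tight.1 hA
    -- the union is not near-tight
    have hW : s + 2 ≤ (Nin T (X ∪ Y)).card := by
      by_contra hc
      have h1 : X ∪ Y ∈ Kset s T R A :=
        mem_Kset.2 ⟨union_subset hX.sub hY.sub, by omega, hAX.trans subset_union_left, v,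
          mem_union_right _ hY.mem, hvA, hvNA⟩
      have h2 := hXmax _ h1 subset_union_left
      apply hvX
      rw [← h2]
      exact mem_union_right _ hY.mem
    have hsm := submod T X Y
    have hnX := hX.near
    have hnY := hY.near
    have hzXY : z ∈ X ∩ Y := mem_inter.2 ⟨hX.mem, hzY⟩
    have hint : X ∩ Y ∈ tight Z s T :=
      mem_tight.2 ⟨inter_subset_left.trans (hX.sub.trans hRZ), ⟨z, hzXY⟩, by omega⟩
    have hIA : X ∩ Y ⊆ A := hAmax _ hint hzXY
    have hIeq : X ∩ Y = A := Subset.antisymm hIA (subset_inter hAX hAY)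
    obtain ⟨-, -, -, u, huX, huA, huN⟩ := mem_Kset.1 hXK
    have huY : u ∉ Y := fun h => huA (hIA (mem_inter.2 ⟨huX, h⟩))
    have hge := hT.ge (X ∩ Y) (inter_subset_left.trans (hX.sub.trans hRZ)) ⟨z, hzXY⟩
    have huNY : u ∉ Nin T Y := by
      intro huNY
      have h1 := submod_strict T X Y u huNY (by rw [hIeq]; exact huN)
        (fun h => (mem_Nin.1 h).1 (mem_union_left _ huX))
      omega
    have huv : ¬ T u v := fun h => huNY (mem_Nin.2 ⟨huY, v, hY.mem, h⟩)
    have hne : u ≠ v := by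
      rintro rfl
      exact hvX huX
    rcases hT.tot u (hRZ (hX.sub huX)) v (hRZ (hY.sub hY.mem)) hne with h | h
    · exact huv h
    · exact hvN (mem_Nin.2 ⟨hvX, u, huX, h⟩)

theorem no_tight {D : V → V → Prop} {Z : Finset V} {s : ℕ} {T : V → V → Prop}
    {L : Finset V} (hS : StablePair D Z s T L)
    (hcl : ∀ X, Rigid D Z s T X → ∀ w ∈ Z, w ∉ X → w ∉ Nin T X → (∃ p ∈ X, D w p) →
        Out Z s T w → w ∈ L)
    (hD : ∀ X ⊆ Z, X.Nonempty → 2 * s + 2 ≤ (Nin D X).card) : tight Z s T = ∅ := by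
  by_contra hne
  obtain ⟨A0, hA0⟩ := nonempty_iff_ne_empty.2 hne
  have hMG := hS.1
  have hT := hS.1.1
  have hLex : ∀ y, ∃ M, y ∈ L → Stab D Z s T y M := by
    intro y
    by_cases hy : y ∈ L
    · obtain ⟨-, M, hM⟩ := hS.2.2 y hy
      exact ⟨M, fun _ => hM⟩
    · exact ⟨∅, fun h => absurd h hy⟩
  choose M hM using hLex
  have hMin : ∀ y ∈ L, IsMin Z s T y (M y) := fun y hy => hM y hy T Relation.ReflTransGen.refl
  obtain ⟨R, hR⟩ : ∃ R : Finset V, R = (tight Z s T).biUnion id ∪ L.biUnion M := ⟨_, rfl⟩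
  have hU : ∀ A ∈ tight Z s T, A ⊆ R := by
    intro A hA x hx
    rw [hR, mem_union, mem_biUnion]
    exact Or.inl ⟨A, hA, hx⟩
  have hMR : ∀ y ∈ L, M y ⊆ R := by
    intro y hy x hx
    rw [hR, mem_union, mem_biUnion, mem_biUnion]
    exact Or.inr ⟨y, hy, hx⟩
  have hRmem : ∀ x ∈ R, (∃ A ∈ tight Z s T, x ∈ A) ∨ ∃ y ∈ L, x ∈ M y := by
    intro x hx
    rw [hR, mem_union, mem_biUnion, mem_biUnion] at hx
    exact hx
  have hRZ : R ⊆ Z := by
    intro x hx
    rcases hRmem x hx with ⟨A, hA, hxA⟩ | ⟨y, hy, hxy⟩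
    · exact (mem_tight.1 hA).1 hxA
    · exact (hMin y hy).1 hxy
  have hRne : R.Nonempty := ((mem_tight.1 hA0).2.1).mono (hU A0 hA0)
  have hAsg : ∀ z, ∃ X, z ∈ R → Asg Z s T R z X := by
    intro z
    by_cases hz : z ∈ R
    · obtain ⟨X, hX⟩ := exists_asg hT hRZ hU (z := z) (by
        intro hout
        rcases hRmem z hz with ⟨A, hA, hxA⟩ | ⟨y, hy, hzy⟩
        · exact absurd hxA (hout A hA)
        · exact ⟨M y, hMR y hy, hzy, (hMin y hy).2.2.1⟩)
      exact ⟨X, fun _ => hX⟩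
    · exact ⟨∅, fun h => absurd h hz⟩
  choose X hX using hAsg
  -- the heads of the assigned sets lie in `R`
  have hheads : ∀ z ∈ R, ∀ v, v ∉ X z → v ∉ Nin T (X z) → (∃ q ∈ X z, D v q) → v ∈ R := by
    rintro z hz v hvX hvN ⟨q, hq, hDq⟩
    have hvZ : v ∈ Z := by
      by_contra hvZ
      exact hvN (mem_Nin.2 ⟨hvX, q, hq, hT.out v q hDq (fun h => hvZ h.1)⟩)
    by_cases hout : Out Z s T v
    · have key : ∀ B, Rigid D Z s T B → B ⊆ X z → q ∈ B → v ∈ R := by
        intro B hB hBX hqB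
        have hvL : v ∈ L := by
          refine hcl B hB v hvZ (fun h => hvX (hBX h)) ?_ ⟨q, hqB, hDq⟩ hout
          intro h
          obtain ⟨-, x, hx, hTx⟩ := mem_Nin.1 h
          exact hvN (mem_Nin.2 ⟨hvX, x, hBX hx, hTx⟩)
        exact hMR v hvL (hMin v hvL).2.1
      by_cases hqout : Out Z s T q
      · rcases hRmem q ((hX z hz).sub hq) with ⟨A, hA, hxA⟩ | ⟨y, hy, hqy⟩
        · exact absurd hxA (hqout A hA)
        · exact key (M y) ((hM y hy).rigid hMG (hS.2.2 y hy).1)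
            ((hX z hz).absN (M y) (hMR y hy) (hMin y hy).2.2.1 q hqy hq hqout) hqy
      · obtain ⟨B, hB, hqB⟩ := not_out.1 hqout
        exact key B (tight_rigid hMG hB) ((hX z hz).absT B hB ⟨q, mem_inter.2 ⟨hqB, hq⟩⟩) hqB
    · obtain ⟨B, hB, hvB⟩ := not_out.1 hout
      exact hU B hB hvB
  -- counting
  have ha : ∀ z ∈ R, s + 1 ≤ (R.filter (fun v => v ∉ X z ∧ v ∉ Nin T (X z))).card := by
    intro z hz
    have hXz := hX z hz
    have h1 : Nin D (X z) \ Nin T (X z) ⊆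
        R.filter (fun v => v ∉ X z ∧ v ∉ Nin T (X z)) := by
      intro v hv
      rw [mem_sdiff] at hv
      have h2 := mem_Nin.1 hv.1
      rw [mem_filter]
      exact ⟨hheads z hz v h2.1 hv.2 h2.2, h2.1, hv.2⟩
    have h2 := card_le_card h1
    have h3 := le_card_sdiff (Nin T (X z)) (Nin D (X z))
    have h4 := hD (X z) (hXz.sub.trans hRZ) ⟨z, hXz.mem⟩
    have h5 := hXz.near
    omega
  have hb : ∀ z ∈ R, (R.filter (fun v => v ∈ Nin T (X z))).card ≤ s + 1 := by
    intro z hz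
    have h1 : R.filter (fun v => v ∈ Nin T (X z)) ⊆ Nin T (X z) := by
      intro v hv
      exact (mem_filter.1 hv).2
    exact (card_le_card h1).trans (hX z hz).near
  have hpq : ∀ z ∈ R, ∀ v ∈ R, v ∉ X z → v ∉ Nin T (X z) → z ∈ Nin T (X v) := by
    intro z hz v hv hvX hvN
    have hzY : z ∉ X v := by
      intro hzY
      exact hvN ((hX z hz).star hT hRZ (hX v hv) hvX hzY)
    have hne : z ≠ v := by
      rintro rfl
      exact hvX (hX z hz).mem
    rcases hT.tot z (hRZ hz) v (hRZ hv) hne with h | h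
    · exact mem_Nin.2 ⟨hzY, v, (hX v hv).mem, h⟩
    · exact absurd (mem_Nin.2 ⟨hvX, z, (hX z hz).mem, h⟩) hvN
  have hsum : ∑ z ∈ R, (R.filter (fun v => v ∉ X z ∧ v ∉ Nin T (X z))).card ≤
      ∑ z ∈ R, (R.filter (fun v => v ∈ Nin T (X z))).card := by
    simp only [card_filter]
    rw [sum_comm]
    apply sum_le_sum
    intro v hv
    apply sum_le_sum
    intro z hz
    by_cases h : v ∉ X z ∧ v ∉ Nin T (X z)
    · have := hpq z hz v hv h.1 h.2
      simp [h, this]
    · simp [h]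
  have heq : ∀ z ∈ R, (R.filter (fun v => v ∈ Nin T (X z))).card = s + 1 := by
    have h1 : ∑ z ∈ R, (R.filter (fun v => v ∈ Nin T (X z))).card ≤ ∑ z ∈ R, (s + 1) :=
      sum_le_sum hb
    have h2 : ∑ z ∈ R, (s + 1) ≤
        ∑ z ∈ R, (R.filter (fun v => v ∉ X z ∧ v ∉ Nin T (X z))).card := sum_le_sum ha
    have h3 := le_antisymm h1 (h2.trans hsum)
    exact (sum_eq_sum_iff_of_le hb).1 h3
  have hNR : ∀ z ∈ R, Nin T (X z) ⊆ R := by
    intro z hz
    have h1 : R.filter (fun v => v ∈ Nin T (X z)) ⊆ Nin T (X z) := by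
      intro v hv
      exact (mem_filter.1 hv).2
    have h2 := eq_of_subset_of_card_le h1 (by rw [heq z hz]; exact (hX z hz).near)
    rw [← h2]
    exact filter_subset _ _
  -- contradiction
  have hfin := hD R hRZ hRne
  have hempty : Nin D R = ∅ := by
    rw [eq_empty_iff_forall_notMem]
    intro v hv
    obtain ⟨hvR, q, hq, hDq⟩ := mem_Nin.1 hv
    have hvX : v ∉ X q := fun h => hvR ((hX q hq).sub h)
    have hvN : v ∉ Nin T (X q) := fun h => hvR (hNR q hq h)
    exact hvR (hheads q hq v hvX hvN ⟨q, (hX q hq).mem, hDq⟩)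
  rw [hempty, card_empty] at hfin
  omega

/-- the one-sided theorem -/
theorem one_sided (D : V → V → Prop) (Z : Finset V) (k : ℕ)
    (hsc : ∀ a ∈ Z, ∀ b ∈ Z, a ≠ b → D a b ∨ D b a)
    (hD : ∀ X ⊆ Z, X.Nonempty → 2 * k ≤ (Nin D X).card) :
    ∃ T, Good D Z k T := by
  have main : ∀ s, s ≤ k → ∃ T, Good D Z s T := by
    intro s
    induction s with
    | zero =>
      intro _
      -- an arbitrary orientation
      obtain ⟨r, -⟩ : ∃ r : V → Fin (Fintype.card V), True := ⟨Fintype.equivFin V, trivial⟩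
      let e := Fintype.equivFin V
      refine ⟨fun a b => D a b ∧ (¬ (a ∈ Z ∧ b ∈ Z) ∨ (a ≠ b ∧ (D b a → e a < e b))), ?_⟩
      refine ⟨fun a b h => h.1, fun a b h h' => ⟨h, Or.inl h'⟩, ?_, ?_,
        fun X _ _ => Nat.zero_le _⟩
      · rintro a ha b hb ⟨h1, h2⟩ ⟨h3, h4⟩
        have h5 := h2.resolve_left (fun h => h ⟨ha, hb⟩)
        have h6 := h4.resolve_left (fun h => h ⟨hb, ha⟩)
        exact lt_asymm (h5.2 h3) (h6.2 h1)
      · intro a ha b hb hab
        have hne : e a ≠ e b := fun h => hab (e.injective h)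
        rcases lt_or_gt_of_ne hne with h | h
        · by_cases h1 : D a b
          · exact Or.inl ⟨h1, Or.inr ⟨hab, fun _ => h⟩⟩
          · have h2 := (hsc a ha b hb hab).resolve_left h1
            exact Or.inr ⟨h2, Or.inr ⟨hab.symm, fun h3 => absurd h3 h1⟩⟩
        · by_cases h1 : D b a
          · exact Or.inr ⟨h1, Or.inr ⟨hab.symm, fun _ => h⟩⟩
          · have h2 := (hsc a ha b hb hab).resolve_right h1
            exact Or.inl ⟨h2, Or.inr ⟨hab, fun h3 => absurd h3 h1⟩⟩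
    | succ s ih =>
      intro hs
      obtain ⟨T0, hT0⟩ := ih (by omega)
      -- choose with the least number of tight sets
      have hex : ∃ m, ∃ T, Good D Z s T ∧ (tight Z s T).card = m := ⟨_, T0, hT0, rfl⟩
      obtain ⟨T1, hT1, hc1⟩ := Nat.find_spec hex
      have hMG : MinGood D Z s T1 := by
        refine ⟨hT1, ?_⟩
        intro T' hT'
        rw [hc1]
        exact Nat.find_min' hex ⟨T', hT', rfl⟩
      obtain ⟨T, L, hS, hcl⟩ := exists_closed hMG
      have hempty := no_tight hS hcl (fun X hX hne => by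
        have := hD X hX hne
        omega)
      refine ⟨T, hS.1.1.le, hS.1.1.out, hS.1.1.anti, hS.1.1.tot, ?_⟩
      intro X hX hne
      by_contra hc
      have : X ∈ tight Z s T := mem_tight.2 ⟨hX, hne, by omega⟩
      rw [hempty] at this
      exact absurd this (notMem_empty _)
  exact main k le_rfl

end Pool.MP0a002eH20
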