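import Pool.Agent.Lib.MP_0a002e_co_h20.Sharp

/-!
Decoupling of the 2-cycles in a critical semicomplete digraph, gluing, with connectivity `2k-1` (helper20, MP_0a002e_co).
-/

open Finset
open scoped Classical

namespace Pool.MP0a002eH20

variable {V : Type*} [Fintype V]

/-- connectivity in terms of cuts -/
def Conn (K : ℕ) (D : V → V → Prop) : Prop :=
  ∀ A B : Finset V, A.Nonempty → B.Nonempty → Disjoint A B →
    Fintype.card V < K + A.card + B.card → ∃ a ∈ A, ∃ b ∈ B, D a b

/-- semicomplete -/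
def SC (D : V → V → Prop) : Prop := ∀ a b : V, a ≠ b → D a b ∨ D b a

/-- reversed digraph -/
def rev (D : V → V → Prop) : V → V → Prop := fun a b => D b a

theorem Conn.rev {K : ℕ} {D : V → V → Prop} (h : Conn K D) : Conn K (rev D) := by
  intro A B hA hB hdisj hc
  obtain ⟨b, hb, a, ha, hD⟩ := h B A hB hA hdisj.symm (by omega)
  exact ⟨a, ha, b, hb, hD⟩

omit [Fintype V] in
theorem SC.rev {D : V → V → Prop} (h : SC D) : SC (rev D) := by
  intro a b hab
  exact (h a b hab).symm

theorem conn_of_paths {K : ℕ} {D : V → V → Prop}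
    (h : ∀ S : Finset V, S.card < K → ∀ u v : V, u ∉ S → v ∉ S →
      Relation.ReflTransGen (fun a b => D a b ∧ a ∉ S ∧ b ∉ S) u v) : Conn K D := by
  intro A B hA hB hdisj hc
  obtain ⟨a, ha⟩ := hA
  obtain ⟨b, hb⟩ := hB
  have hcard : (univ \ (A ∪ B)).card + (A.card + B.card) = Fintype.card V := by
    rw [← card_union_of_disjoint hdisj, card_sdiff_add_card_eq_card (subset_univ _), card_univ]
  have hp := h (univ \ (A ∪ B)) (by omega) a b (by simp [ha]) (by simp [hb])
  by_contra hno
  push Not at hno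
  have key : ∀ w, Relation.ReflTransGen
      (fun a b => D a b ∧ a ∉ univ \ (A ∪ B) ∧ b ∉ univ \ (A ∪ B)) a w → w ∈ A := by
    intro w hw
    induction hw with
    | refl => exact ha
    | @tail x y _ hxy ih =>
      have hy : y ∈ A ∪ B := by
        by_contra hyn
        exact hxy.2.2 (mem_sdiff.2 ⟨mem_univ _, hyn⟩)
      rcases mem_union.1 hy with hy | hy
      · exact hy
      · exact absurd hxy.1 (hno x ih y hy)
  exact (disjoint_left.1 hdisj (key b hp)) hb

theorem paths_of_conn {K : ℕ} {D : V → V → Prop} (h : Conn K D) :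
    ∀ S : Finset V, S.card < K → ∀ u v : V, u ∉ S → v ∉ S →
      Relation.ReflTransGen (fun a b => D a b ∧ a ∉ S ∧ b ∉ S) u v := by
  intro S hS u v hu hv
  by_contra hno
  let A : Finset V := univ.filter (fun w => w ∉ S ∧
    Relation.ReflTransGen (fun a b => D a b ∧ a ∉ S ∧ b ∉ S) u w)
  have hA : ∀ w, w ∈ A ↔ w ∉ S ∧
      Relation.ReflTransGen (fun a b => D a b ∧ a ∉ S ∧ b ∉ S) u w := by
    intro w; simp [A]
  have huA : u ∈ A := (hA u).2 ⟨hu, Relation.ReflTransGen.refl⟩
  have hvB : v ∈ univ \ (A ∪ S) := by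
    simp only [mem_sdiff, mem_univ, true_and, mem_union, not_or]
    exact ⟨fun hvA => hno ((hA v).1 hvA).2, hv⟩
  have hdisj : Disjoint A (univ \ (A ∪ S)) := by
    rw [disjoint_left]
    intro x hx hx'
    simp only [mem_sdiff, mem_univ, true_and, mem_union, not_or] at hx'
    exact hx'.1 hx
  have hdisj2 : Disjoint A S := by
    rw [disjoint_left]
    intro x hx hx'
    exact ((hA x).1 hx).1 hx'
  have hcard : (univ \ (A ∪ S)).card + (A.card + S.card) = Fintype.card V := by
    rw [← card_union_of_disjoint hdisj2, card_sdiff_add_card_eq_card (subset_univ _), card_univ]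
  obtain ⟨a, ha, b, hb, hab⟩ := h A (univ \ (A ∪ S)) ⟨u, huA⟩ ⟨v, hvB⟩ hdisj (by omega)
  simp only [mem_sdiff, mem_univ, true_and, mem_union, not_or] at hb
  have ha' := (hA a).1 ha
  exact hb.1 ((hA b).2 ⟨hb.2, ha'.2.tail ⟨hab, ha'.1, hb.2⟩⟩)

/-- number of arcs -/
noncomputable def arcs (D : V → V → Prop) : Finset (V × V) :=
  univ.filter (fun p => D p.1 p.2)

theorem mem_arcs {D : V → V → Prop} {a b : V} : (a, b) ∈ arcs D ↔ D a b := by
  simp [arcs]

/-- the only arc from `B` to `A` is `v → u` -/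
def Crit (K : ℕ) (D : V → V → Prop) (u v : V) (A B : Finset V) : Prop :=
  u ∈ A ∧ v ∈ B ∧ Disjoint A B ∧ Fintype.card V < K + A.card + B.card ∧
    ∀ b ∈ B, ∀ a ∈ A, D b a → b = v ∧ a = u

theorem exists_critical {K : ℕ} {D0 : V → V → Prop} (hsc : SC D0) (hconn : Conn K D0) :
    ∃ D : V → V → Prop, (∀ a b, D a b → D0 a b) ∧ SC D ∧ Conn K D ∧
      ∀ u v, u ≠ v → D u v → D v u → ∃ A B, Crit K D u v A B := by
  have hex : ∃ m, ∃ D : V → V → Prop, (∀ a b, D a b → D0 a b) ∧ SC D ∧ Conn K D ∧
      (arcs D).card = m := ⟨_, D0, fun _ _ h => h, hsc, hconn, rfl⟩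
  obtain ⟨D, hD, hDsc, hDconn, hm⟩ := Nat.find_spec hex
  refine ⟨D, hD, hDsc, hDconn, ?_⟩
  intro u v huv h1 h2
  by_contra hno
  push Not at hno
  -- delete the arc `v → u`
  let D' : V → V → Prop := fun a b => D a b ∧ ¬(a = v ∧ b = u)
  have hsc' : SC D' := by
    intro a b hab
    by_cases ha : a = v ∧ b = u
    · right
      exact ⟨by rw [ha.1, ha.2]; exact h1, fun h => huv (h.1 ▸ ha.2.symm ▸ rfl)⟩
    · by_cases hb : b = v ∧ a = u
      · left
        exact ⟨by rw [hb.1, hb.2]; exact h1, ha⟩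
      · rcases hDsc a b hab with h | h
        · exact Or.inl ⟨h, ha⟩
        · exact Or.inr ⟨h, hb⟩
  have hconn' : Conn K D' := by
    intro B A hB hA hdisj hc
    by_contra hcon
    push Not at hcon
    have hall : ∀ b ∈ B, ∀ a ∈ A, D b a → b = v ∧ a = u := by
      intro b hb a ha hba
      by_contra hne
      exact hcon b hb a ha ⟨hba, hne⟩
    obtain ⟨b, hb, a, ha, hba⟩ := hDconn B A hB hA hdisj hc
    obtain ⟨rfl, rfl⟩ := hall b hb a ha hba
    exact hno A B ⟨ha, hb, hdisj.symm, by omega, hall⟩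
  have hlt : (arcs D').card < (arcs D).card := by
    apply card_lt_card
    rw [ssubset_iff_of_subset]
    · refine ⟨(v, u), mem_arcs.2 h2, ?_⟩
      rw [mem_arcs]
      intro h
      exact h.2 ⟨rfl, rfl⟩
    · rintro ⟨a, b⟩ hab
      rw [mem_arcs] at hab ⊢
      exact hab.1
  have := Nat.find_min' hex ⟨D', fun a b h => hD a b h.1, hsc', hconn', rfl⟩
  omega

theorem Crit.rev {K : ℕ} {D : V → V → Prop} {u v : V} {A B : Finset V}
    (h : Crit K D u v A B) : Crit K (rev D) v u B A := by
  obtain ⟨h1, h2, h3, h4, h5⟩ := h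
  refine ⟨h2, h1, h3.symm, by omega, ?_⟩
  intro b hb a ha hba
  exact (h5 a ha b hb hba).symm

theorem Crit.cross {K : ℕ} {D : V → V → Prop} (hsc : SC D) {u v : V} {A B A' B' : Finset V}
    (h : Crit K D u v A B) (h' : Crit K D v u A' B') {x : V} (hx : x ∈ A) (hx' : x ∈ B') :
    x = u := by
  by_contra hne
  have hxv : x ≠ v := by
    rintro rfl
    exact disjoint_left.1 h'.2.2.1 h'.1 hx'
  rcases hsc x v hxv with h1 | h1
  · exact hne (h'.2.2.2.2 x hx' v h'.1 h1).1
  · exact hne (h.2.2.2.2 v h.2.1 x hx h1).2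

theorem Crit.small {K : ℕ} {D : V → V → Prop} {u v : V} {A B : Finset V}
    (h : Crit K D u v A B) (hA : A.card ≤ K) : (Nin D {u}).card < 2 * K := by
  obtain ⟨h1, h2, h3, h4, h5⟩ := h
  have hsub : Nin D {u} ⊆ (A.erase u ∪ (univ \ (A ∪ B))) ∪ {v} := by
    intro x hx
    rw [mem_Nin] at hx
    obtain ⟨hxu, y, hy, hxy⟩ := hx
    rw [mem_singleton] at hxu hy
    subst hy
    simp only [mem_union, mem_erase, mem_sdiff, mem_univ, true_and, mem_singleton, not_or]
    by_cases hxA : x ∈ A
    · exact Or.inl (Or.inl ⟨hxu, hxA⟩)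
    · by_cases hxB : x ∈ B
      · exact Or.inr (h5 x hxB y h1 hxy).1
      · exact Or.inl (Or.inr ⟨hxA, hxB⟩)
  have hc1 := card_le_card hsub
  have hc2 := card_union_le (A.erase u ∪ (univ \ (A ∪ B))) {v}
  have hc3 := card_union_le (A.erase u) (univ \ (A ∪ B))
  have hc4 := card_erase_of_mem h1
  have hc5 : (univ \ (A ∪ B)).card + (A.card + B.card) = Fintype.card V := by
    rw [← card_union_of_disjoint h3, card_sdiff_add_card_eq_card (subset_univ _), card_univ]
  have hc6 : 0 < A.card := card_pos.2 ⟨u, h1⟩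
  rw [card_singleton] at hc2
  omega

theorem Crit.half {K : ℕ} {D : V → V → Prop} (hsc : SC D) {u v : V} {A B A' B' : Finset V}
    (h : Crit K D u v A B) (h' : Crit K D v u A' B') (hAA : A ∩ A' = ∅) :
    (Nin D {u}).card < 2 * K ∧ (Nin D {v}).card < 2 * K := by
  have key : ∀ {u v : V} {A B A' B' : Finset V}, Crit K D u v A B → Crit K D v u A' B' →
      A ∩ A' = ∅ → A.card ≤ K := by
    intro u v A B A' B' h h' hAA
    have hsub : A ⊆ insert u (univ \ (A' ∪ B')) := by
      intro x hx
      simp only [mem_insert, mem_sdiff, mem_univ, true_and, mem_union, not_or]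
      by_cases hxu : x = u
      · exact Or.inl hxu
      · refine Or.inr ⟨?_, fun hx' => hxu (h.cross hsc h' hx hx')⟩
        intro hx'
        have : x ∈ A ∩ A' := mem_inter.2 ⟨hx, hx'⟩
        rw [hAA] at this
        exact absurd this (notMem_empty _)
    have hc1 := card_le_card hsub
    have hc2 := card_insert_le u (univ \ (A' ∪ B'))
    have hc5 : (univ \ (A' ∪ B')).card + (A'.card + B'.card) = Fintype.card V := by
      rw [← card_union_of_disjoint h'.2.2.1, card_sdiff_add_card_eq_card (subset_univ _),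
        card_univ]
    have h4 := h'.2.2.2.1
    omega
  exact ⟨h.small (key h h' hAA), h'.small (key h' h (by rw [inter_comm]; exact hAA))⟩

/-- in a critical digraph the ends of a 2-cycle have both small in-degree or both small
out-degree -/
theorem two_cycle {K : ℕ} {D : V → V → Prop} (hsc : SC D) (hconn : Conn K D)
    (hcrit : ∀ u v, u ≠ v → D u v → D v u → ∃ A B, Crit K D u v A B) {u v : V}
    (huv : u ≠ v) (h1 : D u v) (h2 : D v u) :
    ((Nin D {u}).card < 2 * K ∧ (Nin D {v}).card < 2 * K) ∨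
    ((Nin (rev D) {u}).card < 2 * K ∧ (Nin (rev D) {v}).card < 2 * K) := by
  obtain ⟨A, B, h⟩ := hcrit u v huv h1 h2
  obtain ⟨A', B', h'⟩ := hcrit v u huv.symm h2 h1
  by_cases hAA : A ∩ A' = ∅
  · exact Or.inl (h.half hsc h' hAA)
  by_cases hBB : B ∩ B' = ∅
  · right
    have := h.rev.half hsc.rev h'.rev hBB
    exact ⟨this.2, this.1⟩
  exfalso
  obtain ⟨hu, hv, hd, hc, hall⟩ := h
  obtain ⟨hv', hu', hd', hc', hall'⟩ := h'
  -- the two crossing cuts
  have e1 : ¬ (Fintype.card V < K + (B ∪ B').card + (A ∩ A').card) := by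
    intro hlt
    have hdisj : Disjoint (B ∪ B') (A ∩ A') := by
      rw [disjoint_left]
      intro x hx hx'
      rw [mem_union] at hx
      rw [mem_inter] at hx'
      rcases hx with hx | hx
      · exact disjoint_left.1 hd hx'.1 hx
      · exact disjoint_left.1 hd' hx'.2 hx
    obtain ⟨b, hb, a, ha, hba⟩ := hconn (B ∪ B') (A ∩ A') ⟨v, mem_union_left _ hv⟩
      (nonempty_iff_ne_empty.2 hAA) hdisj hlt
    rw [mem_inter] at ha
    rcases mem_union.1 hb with hb | hb
    · have := (hall b hb a ha.1 hba).2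
      subst this
      exact disjoint_left.1 hd' ha.2 hu'
    · have := (hall' b hb a ha.2 hba).2
      subst this
      exact disjoint_left.1 hd ha.1 hv
  have e2 : ¬ (Fintype.card V < K + (B ∩ B').card + (A ∪ A').card) := by
    intro hlt
    have hdisj : Disjoint (B ∩ B') (A ∪ A') := by
      rw [disjoint_left]
      intro x hx hx'
      rw [mem_inter] at hx
      rw [mem_union] at hx'
      rcases hx' with hx' | hx'
      · exact disjoint_left.1 hd hx' hx.1
      · exact disjoint_left.1 hd' hx' hx.2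
    obtain ⟨b, hb, a, ha, hba⟩ := hconn (B ∩ B') (A ∪ A')
      (nonempty_iff_ne_empty.2 hBB) ⟨u, mem_union_left _ hu⟩ hdisj hlt
    rw [mem_inter] at hb
    rcases mem_union.1 ha with ha | ha
    · have := (hall b hb.1 a ha hba).1
      subst this
      exact disjoint_left.1 hd' hv' hb.2
    · have := (hall' b hb.2 a ha hba).1
      subst this
      exact disjoint_left.1 hd hu hb.1
  have s1 := card_union_add_card_inter A A'
  have s2 := card_union_add_card_inter B B'
  omega

/-- the size of the set of vertices of small in-degree -/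
theorem card_small {D : V → V → Prop} (hsc : SC D) {t : ℕ} {Z : Finset V}
    (hZ : ∀ v ∈ Z, (Nin D {v}).card ≤ t) : Z.card ≤ 2 * t + 1 := by
  rcases Z.eq_empty_or_nonempty with rfl | hne
  · simp
  have h1 : ∑ v ∈ Z, (Z.filter (fun u => u ≠ v ∧ D u v)).card ≤ Z.card * t := by
    rw [← smul_eq_mul]
    apply sum_le_card_nsmul
    intro v hv
    refine le_trans (card_le_card ?_) (hZ v hv)
    intro u hu
    rw [mem_filter] at hu
    rw [mem_Nin]
    exact ⟨by simpa using hu.2.1, v, mem_singleton_self v, hu.2.2⟩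
  have h2 : ∑ v ∈ Z, (Z.filter (fun u => u ≠ v ∧ D u v)).card =
      ∑ v ∈ Z, (Z.filter (fun u => u ≠ v ∧ D v u)).card := by
    simp only [card_filter]
    rw [sum_comm]
    apply sum_congr rfl
    intro v _
    apply sum_congr rfl
    intro u _
    simp only [ne_comm]
  have h3 : Z.card * (Z.card - 1) ≤
      ∑ v ∈ Z, ((Z.filter (fun u => u ≠ v ∧ D u v)).card +
        (Z.filter (fun u => u ≠ v ∧ D v u)).card) := by
    rw [← smul_eq_mul]
    apply card_nsmul_le_sum
    intro v hv
    rw [← card_erase_of_mem hv]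
    refine le_trans (card_le_card ?_) (card_union_le _ _)
    intro u hu
    rw [mem_erase] at hu
    rw [mem_union, mem_filter, mem_filter]
    rcases hsc u v hu.1 with h | h
    · exact Or.inl ⟨hu.2, hu.1, h⟩
    · exact Or.inr ⟨hu.2, hu.1, h⟩
  rw [sum_add_distrib, ← h2] at h3
  have h4 : Z.card * (Z.card - 1) ≤ Z.card * (2 * t) := by
    calc Z.card * (Z.card - 1) ≤ Z.card * t + Z.card * t := h3.trans (by omega)
      _ = Z.card * (2 * t) := by ring
  have h5 := Nat.le_of_mul_le_mul_left h4 (card_pos.2 hne)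
  omega

theorem os_hyp {D : V → V → Prop} {K : ℕ} (hconn : Conn K D) {Z : Finset V}
    (hZ : Z.card + K ≤ Fintype.card V) :
    ∀ X ⊆ Z, X.Nonempty → K ≤ (Nin D X).card := by
  intro X hX hne
  have hd : Disjoint X (Nin D X) := by
    rw [disjoint_left]
    intro x hx hx'
    exact (mem_Nin.1 hx').1 hx
  have hcard : (univ \ (X ∪ Nin D X)).card + (X.card + (Nin D X).card) = Fintype.card V := by
    rw [← card_union_of_disjoint hd, card_sdiff_add_card_eq_card (subset_univ _), card_univ]
  rcases (univ \ (X ∪ Nin D X)).eq_empty_or_nonempty with h | h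
  · rw [h, card_empty] at hcard
    have := card_le_card hX
    omega
  · by_contra hc
    obtain ⟨b, hb, a, ha, hba⟩ := hconn (univ \ (X ∪ Nin D X)) X h hne (by
      rw [disjoint_left]
      intro x hx hx'
      simp only [mem_sdiff, mem_univ, true_and, mem_union, not_or] at hx
      exact hx.1 hx') (by omega)
    simp only [mem_sdiff, mem_univ, true_and, mem_union, not_or] at hb
    exact hb.2 (mem_Nin.2 ⟨hb.1, a, ha, hba⟩)

/-- one side of a separation consists of vertices of small in-degree -/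
theorem left_case {D H : V → V → Prop} {k K t : ℕ} (hk : 1 ≤ k) (hK : K + 1 = 2 * k)
    (ht1 : 4 * k ≤ t + 3) (ht2 : 5 * k ≤ t + 5)
    (hn : 2 * t + 2 * k ≤ Fintype.card V) (hHD : ∀ a b, H a b → D a b) (hH : SC H)
    (h2 : ∀ u v, u ≠ v → D u v → D v u →
      ((Nin D {u}).card < 2 * K ∧ (Nin D {v}).card < 2 * K) ∨
      ((Nin (rev D) {u}).card < 2 * K ∧ (Nin (rev D) {v}).card < 2 * K))
    {A B : Finset V} (hd : Disjoint A B) (hc : Fintype.card V < k + A.card + B.card)
    (hno : ∀ b ∈ B, ∀ a ∈ A, ¬ H b a) {y : V} (hy : y ∈ B)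
    (hdeg : (Nin D {y}).card < 2 * K) :
    ∀ a ∈ A, (Nin D {a}).card ≤ t := by
  have hdir : ∀ b ∈ B, ∀ a ∈ A, H a b := by
    intro b hb a ha
    have hne : a ≠ b := by
      rintro rfl
      exact disjoint_left.1 hd ha hb
    exact (hH a b hne).resolve_right (hno b hb a ha)
  have hA : A.card ≤ (Nin D {y}).card := by
    apply card_le_card
    intro a ha
    rw [mem_Nin]
    refine ⟨?_, y, mem_singleton_self y, hHD a y (hdir y hy a ha)⟩
    rw [mem_singleton]
    rintro rfl
    exact disjoint_left.1 hd ha hy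
  intro a ha
  have hcard : (univ \ (A ∪ B)).card + (A.card + B.card) = Fintype.card V := by
    rw [← card_union_of_disjoint hd, card_sdiff_add_card_eq_card (subset_univ _), card_univ]
  by_cases hex : ∃ b ∈ B, D b a
  · obtain ⟨b, hb, hba⟩ := hex
    have hne : a ≠ b := by
      rintro rfl
      exact disjoint_left.1 hd ha hb
    rcases h2 a b hne (hHD _ _ (hdir b hb a ha)) hba with h | h
    · have := h.1
      omega
    · exfalso
      have hB : B.card ≤ (Nin (rev D) {a}).card := by
        apply card_le_card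
        intro b' hb'
        rw [mem_Nin]
        refine ⟨?_, a, mem_singleton_self a, hHD a b' (hdir b' hb' a ha)⟩
        rw [mem_singleton]
        rintro rfl
        exact disjoint_left.1 hd ha hb'
      have := h.1
      omega
  · push Not at hex
    have hsub : Nin D {a} ⊆ A.erase a ∪ (univ \ (A ∪ B)) := by
      intro x hx
      obtain ⟨hxa, z, hz, hxz⟩ := mem_Nin.1 hx
      rw [mem_singleton] at hxa hz
      subst hz
      simp only [mem_union, mem_erase, mem_sdiff, mem_univ, true_and, not_or]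
      by_cases hxA : x ∈ A
      · exact Or.inl ⟨hxa, hxA⟩
      · exact Or.inr ⟨hxA, fun hxB => hex x hxB hxz⟩
    have hc1 := card_le_card hsub
    have hc2 := card_union_le (A.erase a) (univ \ (A ∪ B))
    have hc3 := card_erase_of_mem ha
    have hc4 : 0 < A.card := card_pos.2 ⟨a, ha⟩
    omega

theorem main_semicomplete {D0 : V → V → Prop} {k K t : ℕ} (hk : 1 ≤ k) (hK : K + 1 = 2 * k)
    (ht1 : 4 * k ≤ t + 3) (ht2 : 5 * k ≤ t + 5)
    (hn : 2 * t + 2 * k ≤ Fintype.card V) (hsc0 : SC D0) (hconn0 : Conn K D0) :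
    ∃ H : V → V → Prop, (∀ a b, H a b → D0 a b) ∧ (∀ a b, H a b → ¬ H b a) ∧ SC H ∧
      Conn k H := by
  obtain ⟨D, hDD0, hsc, hconn, hcrit⟩ := exists_critical hsc0 hconn0
  have h2 : ∀ u v, u ≠ v → D u v → D v u →
      ((Nin D {u}).card < 2 * K ∧ (Nin D {v}).card < 2 * K) ∨
      ((Nin (rev D) {u}).card < 2 * K ∧ (Nin (rev D) {v}).card < 2 * K) :=
    fun u v huv h1 h1' => two_cycle hsc hconn hcrit huv h1 h1'
  obtain ⟨Zm, hZm⟩ : ∃ Z : Finset V, ∀ v, v ∈ Z ↔ (Nin D {v}).card ≤ t :=
    ⟨univ.filter (fun v => (Nin D {v}).card ≤ t), by simp⟩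
  obtain ⟨Zp, hZp⟩ : ∃ Z : Finset V, ∀ v, v ∈ Z ↔ (Nin (rev D) {v}).card ≤ t :=
    ⟨univ.filter (fun v => (Nin (rev D) {v}).card ≤ t), by simp⟩
  have hcm : Zm.card ≤ 2 * t + 1 := card_small hsc (fun v hv => (hZm v).1 hv)
  have hcp : Zp.card ≤ 2 * t + 1 := card_small hsc.rev (fun v hv => (hZp v).1 hv)
  have hdisj : ∀ v, v ∈ Zm → v ∈ Zp → False := by
    intro v hv hv'
    rw [hZm] at hv
    rw [hZp] at hv'
    have hsub : univ.erase v ⊆ Nin D {v} ∪ Nin (rev D) {v} := by
      intro u hu
      have hne := (mem_erase.1 hu).1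
      rw [mem_union, mem_Nin, mem_Nin]
      rcases hsc u v hne with h | h
      · exact Or.inl ⟨by simpa using hne, v, mem_singleton_self v, h⟩
      · exact Or.inr ⟨by simpa using hne, v, mem_singleton_self v, h⟩
    have hc1 := card_le_card hsub
    have hc2 := card_union_le (Nin D {v}) (Nin (rev D) {v})
    rw [card_erase_of_mem (mem_univ v), card_univ] at hc1
    omega
  obtain ⟨T1, hT1⟩ := one_sided D Zm k hk (fun a _ b _ hab => hsc a b hab) (by
    intro X hX hne
    have := os_hyp hconn (Z := Zm) (by omega) X hX hne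
    omega)
  obtain ⟨T2, hT2⟩ := one_sided (rev D) Zp k hk (fun a _ b _ hab => hsc.rev a b hab) (by
    intro X hX hne
    have := os_hyp hconn.rev (Z := Zp) (by omega) X hX hne
    omega)
  -- the glued tournament
  obtain ⟨H, hH⟩ : ∃ H : V → V → Prop, ∀ a b, H a b ↔ a ≠ b ∧ T1 a b ∧ T2 b a :=
    ⟨fun a b => a ≠ b ∧ T1 a b ∧ T2 b a, fun _ _ => Iff.rfl⟩
  have hHD : ∀ a b, H a b → D a b := fun a b h => hT1.le a b ((hH a b).1 h).2.1
  have hHsc : SC H := by
    intro a b hab
    by_cases hm : a ∈ Zm ∧ b ∈ Zm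
    · rcases hT1.tot a hm.1 b hm.2 hab with h | h
      · exact Or.inl ((hH a b).2 ⟨hab, h, hT2.out b a (hT1.le a b h)
          (fun h' => hdisj a hm.1 h'.2)⟩)
      · exact Or.inr ((hH b a).2 ⟨hab.symm, h, hT2.out a b (hT1.le b a h)
          (fun h' => hdisj a hm.1 h'.1)⟩)
    · by_cases hp : a ∈ Zp ∧ b ∈ Zp
      · rcases hT2.tot b hp.2 a hp.1 hab.symm with h | h
        · exact Or.inl ((hH a b).2 ⟨hab, hT1.out a b (hT2.le b a h)
            (fun h' => hdisj a h'.1 hp.1), h⟩)
        · exact Or.inr ((hH b a).2 ⟨hab.symm, hT1.out b a (hT2.le a b h)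
            (fun h' => hdisj a h'.2 hp.1), h⟩)
      · rcases hsc a b hab with h | h
        · exact Or.inl ((hH a b).2 ⟨hab, hT1.out a b h hm,
            hT2.out b a h (fun h' => hp ⟨h'.2, h'.1⟩)⟩)
        · exact Or.inr ((hH b a).2 ⟨hab.symm, hT1.out b a h (fun h' => hm ⟨h'.2, h'.1⟩),
            hT2.out a b h hp⟩)
  refine ⟨H, fun a b h => hDD0 a b (hHD a b h), ?_, hHsc, ?_⟩
  · intro a b hab hba
    have hne := ((hH a b).1 hab).1
    rcases h2 a b hne (hHD a b hab) (hHD b a hba) with h | h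
    · have ha : a ∈ Zm := (hZm a).2 (by have := h.1; omega)
      have hb : b ∈ Zm := (hZm b).2 (by have := h.2; omega)
      exact hT1.anti a ha b hb ((hH a b).1 hab).2.1 ((hH b a).1 hba).2.1
    · have ha : a ∈ Zp := (hZp a).2 (by have := h.1; omega)
      have hb : b ∈ Zp := (hZp b).2 (by have := h.2; omega)
      exact hT2.anti b hb a ha ((hH a b).1 hab).2.2 ((hH b a).1 hba).2.2
  · intro B A hB hA hd hc
    by_contra hno
    push Not at hno
    have hdir : ∀ b ∈ B, ∀ a ∈ A, H a b := by
      intro b hb a ha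
      have hne : a ≠ b := by
        rintro rfl
        exact disjoint_left.1 hd hb ha
      exact (hHsc a b hne).resolve_right (hno b hb a ha)
    have hcard : (univ \ (B ∪ A)).card + (B.card + A.card) = Fintype.card V := by
      rw [← card_union_of_disjoint hd, card_sdiff_add_card_eq_card (subset_univ _), card_univ]
    obtain ⟨y, hy, x, hx, hyx⟩ := hconn B A hB hA hd (by omega)
    have hne : x ≠ y := by
      rintro rfl
      exact disjoint_left.1 hd hy hx
    rcases h2 x y hne (hHD x y (hdir y hy x hx)) hyx with h | h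
    · have hAZ : A ⊆ Zm := by
        intro a ha
        rw [hZm]
        exact left_case hk hK ht1 ht2 hn hHD hHsc h2 hd.symm (by omega) hno hy h.2 a ha
      have h3 := hT1.ge A hAZ hA
      have h4 : Nin T1 A ⊆ univ \ (B ∪ A) := by
        intro u hu
        obtain ⟨huA, a, ha, hua⟩ := mem_Nin.1 hu
        simp only [mem_sdiff, mem_univ, true_and, mem_union, not_or]
        refine ⟨?_, huA⟩
        intro huB
        apply hno u huB a ha
        rw [hH]
        refine ⟨?_, hua, hT2.out a u (hT1.le u a hua) (fun h' => hdisj a (hAZ ha) h'.1)⟩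
        rintro rfl
        exact huA ha
      have h5 := card_le_card h4
      omega
    · have hBZ : B ⊆ Zp := by
        intro b hb
        rw [hZp]
        refine left_case (D := rev D) (H := rev H) hk hK ht1 ht2 hn (fun a b h' => hHD b a h') hHsc.rev
          ?_ hd (by omega) (fun a ha b hb h' => hno b hb a ha h') hx h.1 b hb
        intro u v huv h5 h6
        exact (h2 u v huv h6 h5).symm
      have h3 := hT2.ge B hBZ hB
      have h4 : Nin T2 B ⊆ univ \ (B ∪ A) := by
        intro u hu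
        obtain ⟨huB, b, hb, hub⟩ := mem_Nin.1 hu
        simp only [mem_sdiff, mem_univ, true_and, mem_union, not_or]
        refine ⟨huB, ?_⟩
        intro huA
        apply hno b hb u huA
        rw [hH]
        refine ⟨?_, hT1.out b u (hT2.le u b hub) (fun h' => hdisj b h'.1 (hBZ hb)), hub⟩
        rintro rfl
        exact huB hb
      have h5 := card_le_card h4
      omega

end Pool.MP0a002eH20
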