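import Mathlib

/-!
In-neighbourhoods, submodularity and flips of arcs (helper20, MP_0a002e_co).
-/

open Finset
open scoped Classical

namespace Pool.MP0a002eH20

variable {V : Type*} [Fintype V]

/-- the set of vertices outside `X` that send an arc of `T` into `X` -/
noncomputable def Nin (T : V → V → Prop) (X : Finset V) : Finset V :=
  univ.filter (fun u => u ∉ X ∧ ∃ x ∈ X, T u x)

theorem mem_Nin {T : V → V → Prop} {X : Finset V} {u : V} :
    u ∈ Nin T X ↔ u ∉ X ∧ ∃ x ∈ X, T u x := by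
  simp [Nin]

theorem submod (T : V → V → Prop) (X Y : Finset V) :
    (Nin T (X ∩ Y)).card + (Nin T (X ∪ Y)).card ≤ (Nin T X).card + (Nin T Y).card := by
  rw [← card_union_add_card_inter, ← card_union_add_card_inter (Nin T X)]
  apply Nat.add_le_add
  · apply card_le_card
    intro u hu
    rw [mem_union, mem_Nin, mem_Nin] at hu
    rw [mem_union, mem_Nin, mem_Nin]
    rcases hu with ⟨h1, x, hx, hT⟩ | ⟨h1, x, hx, hT⟩
    · rw [mem_inter] at hx
      by_cases hX : u ∈ X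
      · right
        exact ⟨fun h => h1 (mem_inter.2 ⟨hX, h⟩), x, hx.2, hT⟩
      · left
        exact ⟨hX, x, hx.1, hT⟩
    · rw [mem_union] at hx h1
      push Not at h1
      rcases hx with hx | hx
      · left; exact ⟨h1.1, x, hx, hT⟩
      · right; exact ⟨h1.2, x, hx, hT⟩
  · apply card_le_card
    intro u hu
    rw [mem_inter, mem_Nin, mem_Nin] at hu
    rw [mem_inter, mem_Nin, mem_Nin]
    obtain ⟨⟨-, x, hx, hT⟩, h1, -⟩ := hu
    rw [mem_inter] at hx
    rw [mem_union] at h1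
    push Not at h1
    exact ⟨⟨h1.1, x, hx.1, hT⟩, ⟨h1.2, x, hx.2, hT⟩⟩

theorem submod_strict (T : V → V → Prop) (X Y : Finset V) (u : V) (h1 : u ∈ Nin T Y)
    (h2 : u ∉ Nin T (X ∩ Y)) (h3 : u ∉ Nin T (X ∪ Y)) :
    (Nin T (X ∩ Y)).card + (Nin T (X ∪ Y)).card + 1 ≤ (Nin T X).card + (Nin T Y).card := by
  rw [← card_union_add_card_inter, ← card_union_add_card_inter (Nin T X)]
  have hsub : Nin T (X ∩ Y) ∪ Nin T (X ∪ Y) ⊆ (Nin T X ∪ Nin T Y).erase u := by
    intro w hw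
    rw [mem_erase]
    refine ⟨?_, ?_⟩
    · rintro rfl
      rw [mem_union] at hw
      tauto
    · rw [mem_union, mem_Nin, mem_Nin] at hw
      rw [mem_union, mem_Nin, mem_Nin]
      rcases hw with ⟨h1, x, hx, hT⟩ | ⟨h1, x, hx, hT⟩
      · rw [mem_inter] at hx
        by_cases hX : w ∈ X
        · right
          exact ⟨fun h => h1 (mem_inter.2 ⟨hX, h⟩), x, hx.2, hT⟩
        · left
          exact ⟨hX, x, hx.1, hT⟩
      · rw [mem_union] at hx h1
        push Not at h1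
        rcases hx with hx | hx
        · left; exact ⟨h1.1, x, hx, hT⟩
        · right; exact ⟨h1.2, x, hx, hT⟩
  have hc := card_le_card hsub
  have hu : u ∈ Nin T X ∪ Nin T Y := mem_union_right _ h1
  have hc2 := card_erase_add_one hu
  have hi : (Nin T (X ∩ Y) ∩ Nin T (X ∪ Y)).card ≤ (Nin T X ∩ Nin T Y).card := by
    apply card_le_card
    intro u hu
    rw [mem_inter, mem_Nin, mem_Nin] at hu
    rw [mem_inter, mem_Nin, mem_Nin]
    obtain ⟨⟨-, x, hx, hT⟩, h1, -⟩ := hu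
    rw [mem_inter] at hx
    rw [mem_union] at h1
    push Not at h1
    exact ⟨⟨h1.1, x, hx.1, hT⟩, ⟨h1.2, x, hx.2, hT⟩⟩
  omega

/-- replace the arc `p → v` by `v → p` -/
def flip (T : V → V → Prop) (p v : V) : V → V → Prop :=
  fun a b => (T a b ∧ ¬(a = p ∧ b = v)) ∨ (a = v ∧ b = p)

theorem Nin_flip_ge {T : V → V → Prop} {p v : V} {X : Finset V} (hv : v ∉ X) :
    Nin T X ⊆ Nin (flip T p v) X := by
  intro u hu
  rw [mem_Nin] at hu ⊢
  obtain ⟨h1, x, hx, hT⟩ := hu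
  refine ⟨h1, x, hx, Or.inl ⟨hT, ?_⟩⟩
  rintro ⟨-, rfl⟩
  exact hv hx

theorem Nin_flip_erase {T : V → V → Prop} {p v : V} {X : Finset V} :
    (Nin T X).erase p ⊆ Nin (flip T p v) X := by
  intro u hu
  rw [mem_erase, mem_Nin] at hu
  rw [mem_Nin]
  obtain ⟨h0, h1, x, hx, hT⟩ := hu
  exact ⟨h1, x, hx, Or.inl ⟨hT, fun h => h0 h.1⟩⟩

theorem card_Nin_flip {T : V → V → Prop} {p v : V} {X : Finset V} :
    (Nin T X).card ≤ (Nin (flip T p v) X).card + 1 := by
  have h1 := card_le_card (Nin_flip_erase (T := T) (p := p) (v := v) (X := X))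
  have h2 := pred_card_le_card_erase (s := Nin T X) (a := p)
  omega

theorem mem_Nin_flip {T : V → V → Prop} {p v : V} {X : Finset V} (hv : v ∉ X) (hp : p ∈ X) :
    v ∈ Nin (flip T p v) X := by
  rw [mem_Nin]
  exact ⟨hv, p, hp, Or.inr ⟨rfl, rfl⟩⟩

/-- `T` is obtained from `D` by orienting the pairs of `Z` as a tournament, and all nonempty
subsets of `Z` have at least `s` in-neighbours -/
structure Good (D : V → V → Prop) (Z : Finset V) (s : ℕ) (T : V → V → Prop) : Prop where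
  le : ∀ a b, T a b → D a b
  out : ∀ a b, D a b → ¬(a ∈ Z ∧ b ∈ Z) → T a b
  anti : ∀ a ∈ Z, ∀ b ∈ Z, T a b → ¬ T b a
  tot : ∀ a ∈ Z, ∀ b ∈ Z, a ≠ b → T a b ∨ T b a
  ge : ∀ X ⊆ Z, X.Nonempty → s ≤ (Nin T X).card

/-- the family of tight sets -/
noncomputable def tight (Z : Finset V) (s : ℕ) (T : V → V → Prop) : Finset (Finset V) :=
  Z.powerset.filter (fun X => X.Nonempty ∧ (Nin T X).card ≤ s)

theorem mem_tight {Z : Finset V} {s : ℕ} {T : V → V → Prop} {X : Finset V} :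
    X ∈ tight Z s T ↔ X ⊆ Z ∧ X.Nonempty ∧ (Nin T X).card ≤ s := by
  simp [tight]

/-- free vertices -/
def Free (Z : Finset V) (s : ℕ) (T : V → V → Prop) (v : V) : Prop :=
  ∀ X ⊆ Z, v ∈ X → s + 2 ≤ (Nin T X).card

/-- a free flip -/
def Step (D : V → V → Prop) (Z : Finset V) (s : ℕ) (T T' : V → V → Prop) : Prop :=
  ∃ p ∈ Z, ∃ v ∈ Z, T p v ∧ D v p ∧ Free Z s T v ∧ T' = flip T p v

/-- good with the least number of tight sets -/
def MinGood (D : V → V → Prop) (Z : Finset V) (s : ℕ) (T : V → V → Prop) : Prop :=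
  Good D Z s T ∧ ∀ T', Good D Z s T' → (tight Z s T).card ≤ (tight Z s T').card

theorem Good.step {D : V → V → Prop} {Z : Finset V} {s : ℕ} {T T' : V → V → Prop}
    (hT : Good D Z s T) (h : Step D Z s T T') :
    Good D Z s T' ∧ tight Z s T' ⊆ tight Z s T := by
  obtain ⟨p, hp, v, hv, hpv, hvp, hfree, rfl⟩ := h
  have hne : p ≠ v := by
    rintro rfl
    exact hT.anti p hp p hp hpv hpv
  have hge : ∀ X ⊆ Z, X.Nonempty → s ≤ (Nin (flip T p v) X).card ∧
      ((Nin (flip T p v) X).card ≤ s → (Nin T X).card ≤ s) := by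
    intro X hX hXn
    by_cases hvX : v ∈ X
    · have h1 := hfree X hX hvX
      have h2 := card_Nin_flip (T := T) (p := p) (v := v) (X := X)
      omega
    · have h1 := card_le_card (Nin_flip_ge (T := T) (p := p) hvX)
      have h2 := hT.ge X hX hXn
      omega
  refine ⟨⟨?_, ?_, ?_, ?_, fun X hX hXn => (hge X hX hXn).1⟩, ?_⟩
  · rintro a b (⟨h, -⟩ | ⟨rfl, rfl⟩)
    · exact hT.le a b h
    · exact hvp
  · intro a b hD hab
    refine Or.inl ⟨hT.out a b hD hab, ?_⟩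
    rintro ⟨rfl, rfl⟩
    exact hab ⟨hp, hv⟩
  · rintro a ha b hb (⟨h, h'⟩ | ⟨rfl, rfl⟩) (⟨g, g'⟩ | ⟨g, g'⟩)
    · exact hT.anti a ha b hb h g
    · exact h' ⟨g', g⟩
    · exact g' ⟨rfl, rfl⟩
    · exact hne g
  · intro a ha b hb hab
    rcases hT.tot a ha b hb hab with h | h
    · by_cases h' : a = p ∧ b = v
      · right; exact Or.inr ⟨h'.2, h'.1⟩
      · left; exact Or.inl ⟨h, h'⟩
    · by_cases h' : b = p ∧ a = v
      · left; exact Or.inr ⟨h'.2, h'.1⟩
      · right; exact Or.inl ⟨h, h'⟩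
  · intro X hX
    rw [mem_tight] at hX ⊢
    exact ⟨hX.1, hX.2.1, (hge X hX.1 hX.2.1).2 hX.2.2⟩

theorem MinGood.step {D : V → V → Prop} {Z : Finset V} {s : ℕ} {T T' : V → V → Prop}
    (hT : MinGood D Z s T) (h : Step D Z s T T') :
    MinGood D Z s T' ∧ tight Z s T' = tight Z s T := by
  obtain ⟨h1, h2⟩ := hT.1.step h
  have h3 := eq_of_subset_of_card_le h2 (hT.2 T' h1)
  refine ⟨⟨h1, ?_⟩, h3⟩
  rw [h3]
  exact hT.2

theorem MinGood.reach {D : V → V → Prop} {Z : Finset V} {s : ℕ} {T T' : V → V → Prop}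
    (hT : MinGood D Z s T) (h : Relation.ReflTransGen (Step D Z s) T T') :
    MinGood D Z s T' ∧ tight Z s T' = tight Z s T := by
  induction h with
  | refl => exact ⟨hT, rfl⟩
  | tail _ h2 ih =>
    obtain ⟨g1, g2⟩ := ih.1.step h2
    exact ⟨g1, g2.trans ih.2⟩

/-- `M` is the smallest near-tight set containing `y` -/
def IsMin (Z : Finset V) (s : ℕ) (T : V → V → Prop) (y : V) (M : Finset V) : Prop :=
  M ⊆ Z ∧ y ∈ M ∧ (Nin T M).card ≤ s + 1 ∧
    ∀ X ⊆ Z, y ∈ X → (Nin T X).card ≤ s + 1 → M ⊆ X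

/-- not in any tight set -/
def Out (Z : Finset V) (s : ℕ) (T : V → V → Prop) (y : V) : Prop :=
  ∀ X ∈ tight Z s T, y ∉ X

theorem Out.ge {Z : Finset V} {s : ℕ} {T : V → V → Prop} {y : V} (h : Out Z s T y)
    {X : Finset V} (hX : X ⊆ Z) (hy : y ∈ X) : s + 1 ≤ (Nin T X).card := by
  by_contra hc
  exact h X (mem_tight.2 ⟨hX, ⟨y, hy⟩, by omega⟩) hy

theorem Out.inter {Z : Finset V} {s : ℕ} {T : V → V → Prop} {y : V} (h : Out Z s T y)
    {X Y : Finset V} (hX : X ⊆ Z) (hyX : y ∈ X) (hY : Y ⊆ Z) (hyY : y ∈ Y)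
    (hcX : (Nin T X).card ≤ s + 1) (hcY : (Nin T Y).card ≤ s + 1) :
    (Nin T (X ∩ Y)).card ≤ s + 1 ∧ (Nin T (X ∪ Y)).card ≤ s + 1 := by
  have h1 := submod T X Y
  have h2 := h.ge (X := X ∩ Y) (inter_subset_left.trans hX) (mem_inter.2 ⟨hyX, hyY⟩)
  have h3 := h.ge (X := X ∪ Y) (union_subset hX hY) (mem_union_left _ hyX)
  omega

theorem exists_isMin {Z : Finset V} {s : ℕ} {T : V → V → Prop} {y : V} (h : Out Z s T y)
    (hn : ¬ Free Z s T y) : ∃ M, IsMin Z s T y M := by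
  unfold Free at hn
  push Not at hn
  obtain ⟨X0, hX0, hyX0, hcX0⟩ := hn
  have hne : (Z.powerset.filter (fun X => y ∈ X ∧ (Nin T X).card ≤ s + 1)).Nonempty :=
    ⟨X0, by simp only [mem_filter, mem_powerset]; exact ⟨hX0, hyX0, by omega⟩⟩
  obtain ⟨M, hM, hmin⟩ := exists_min_image _ (fun X => X.card) hne
  simp only [mem_filter, mem_powerset] at hM hmin
  refine ⟨M, hM.1, hM.2.1, hM.2.2, ?_⟩
  intro X hX hyX hcX
  have h1 := (h.inter hM.1 hM.2.1 hX hyX hM.2.2 hcX).1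
  have h2 := hmin (M ∩ X) ⟨inter_subset_left.trans hM.1, mem_inter.2 ⟨hM.2.1, hyX⟩, h1⟩
  have h3 := eq_of_subset_of_card_le inter_subset_left h2
  rw [← h3]
  exact inter_subset_right

theorem IsMin.not_free {Z : Finset V} {s : ℕ} {T : V → V → Prop} {y : V} {M : Finset V}
    (h : IsMin Z s T y M) : ¬ Free Z s T y := by
  intro hf
  have := hf M h.1 h.2.1
  have := h.2.2.1
  omega

/-- monotonicity of the smallest near-tight sets along free flips -/
theorem IsMin.mono {D : V → V → Prop} {Z : Finset V} {s : ℕ} {T T' : V → V → Prop} {y : V}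
    {M : Finset V} (hM : IsMin Z s T y M) (hstep : Step D Z s T T')
    {X : Finset V} (hX : X ⊆ Z) (hy : y ∈ X) (hc : (Nin T' X).card ≤ s + 1) : M ⊆ X := by
  obtain ⟨p, hp, v, hv, hpv, hvp, hfree, rfl⟩ := hstep
  by_cases h1 : (Nin T X).card ≤ s + 1
  · exact hM.2.2.2 X hX hy h1
  · have hvX : v ∈ X := by
      by_contra hvX
      have := card_le_card (Nin_flip_ge (T := T) (p := p) hvX)
      omega
    have h2 := card_Nin_flip (T := T) (p := p) (v := v) (X := X)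
    have h3 := hfree (X ∪ M) (union_subset hX hM.1) (mem_union_left _ hvX)
    have h4 := submod T X M
    have h5 := hM.2.2.1
    have h6 := hM.2.2.2 (X ∩ M) (inter_subset_left.trans hX) (mem_inter.2 ⟨hy, hM.2.1⟩)
      (by omega)
    exact h6.trans inter_subset_left

theorem IsMin.unique {Z : Finset V} {s : ℕ} {T : V → V → Prop} {y : V} {M M' : Finset V}
    (hM : IsMin Z s T y M) (hM' : IsMin Z s T y M') : M = M' :=
  Subset.antisymm (hM.2.2.2 M' hM'.1 hM'.2.1 hM'.2.2.1) (hM'.2.2.2 M hM.1 hM.2.1 hM.2.2.1)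

end Pool.MP0a002eH20
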