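import Pool.Agent.Lib.MP_0a002e_co_h20.Stable

/-!
The counting argument and the one-sided theorem with the sharp bound `2k-1`
(helper20, MP_0a002e_co).
-/

open Finset
open scoped Classical

namespace Pool.MP0a002eH20

variable {V : Type*} [Fintype V]

theorem not_out {Z : Finset V} {s : ℕ} {T : V → V → Prop} {z : V} :
    ¬ Out Z s T z ↔ ∃ A ∈ tight Z s T, z ∈ A := by
  unfold Out
  push Not
  rfl

theorem near_union_tight {D : V → V → Prop} {Z : Finset V} {s : ℕ} {T : V → V → Prop}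
    (hT : Good D Z s T) {A X : Finset V} (hA : A ∈ tight Z s T)
    (hne : (A ∩ X).Nonempty) {c : ℕ} (hc : (Nin T X).card ≤ c) :
    (Nin T (A ∪ X)).card ≤ c := by
  have h1 := mem_tight.1 hA
  have h2 := submod T A X
  have h3 := hT.ge (A ∩ X) (inter_subset_left.trans h1.1) hne
  omega

theorem tight_union {D : V → V → Prop} {Z : Finset V} {s : ℕ} {T : V → V → Prop}
    (hT : Good D Z s T) {A X : Finset V} (hA : A ∈ tight Z s T) (hX : X ∈ tight Z s T)
    (hne : (A ∩ X).Nonempty) : A ∪ X ∈ tight Z s T := by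
  have h1 := mem_tight.1 hA
  have h2 := mem_tight.1 hX
  rw [mem_tight]
  exact ⟨union_subset h1.1 h2.1, h1.2.1.mono subset_union_left,
    near_union_tight hT hA hne h2.2.2⟩

theorem exists_largest {D : V → V → Prop} {Z : Finset V} {s : ℕ} {T : V → V → Prop}
    (hT : Good D Z s T) {z : V} (hz : ¬ Out Z s T z) :
    ∃ A ∈ tight Z s T, z ∈ A ∧ ∀ Y ∈ tight Z s T, (A ∩ Y).Nonempty → Y ⊆ A := by
  rw [not_out] at hz
  obtain ⟨A0, hA0, hzA0⟩ := hz
  obtain ⟨A, hA, hmax⟩ := exists_max_image ((tight Z s T).filter (fun X => z ∈ X))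
    (fun X => X.card) ⟨A0, mem_filter.2 ⟨hA0, hzA0⟩⟩
  rw [mem_filter] at hA
  refine ⟨A, hA.1, hA.2, ?_⟩
  intro Y hY hne
  have h1 := tight_union hT hA.1 hY hne
  have h2 := hmax (A ∪ Y) (mem_filter.2 ⟨h1, mem_union_left _ hA.2⟩)
  have h3 := eq_of_subset_of_card_le (subset_union_left (s₁ := A) (s₂ := Y)) h2
  rw [h3]
  exact subset_union_right

/-- near-tight sets above `A` with a vertex not dominated by `A` -/
noncomputable def Kset (s : ℕ) (T : V → V → Prop) (R A : Finset V) : Finset (Finset V) :=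
  R.powerset.filter (fun W => (Nin T W).card ≤ s + 1 ∧ A ⊆ W ∧ ∃ u ∈ W, u ∉ A ∧ u ∉ Nin T A)

theorem mem_Kset {s : ℕ} {T : V → V → Prop} {R A W : Finset V} :
    W ∈ Kset s T R A ↔ W ⊆ R ∧ (Nin T W).card ≤ s + 1 ∧ A ⊆ W ∧
      ∃ u ∈ W, u ∉ A ∧ u ∉ Nin T A := by
  simp [Kset]

theorem Kset_union {D : V → V → Prop} {Z : Finset V} {s : ℕ} {T : V → V → Prop}
    (hT : Good D Z s T) {R : Finset V} (hRZ : R ⊆ Z) {A X Y : Finset V}
    (hA : A ∈ tight Z s T) (hAmax : ∀ B ∈ tight Z s T, (A ∩ B).Nonempty → B ⊆ A)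
    (hX : X ∈ Kset s T R A) (hY : Y ∈ Kset s T R A) : X ∪ Y ∈ Kset s T R A := by
  obtain ⟨hXR, hXc, hAX, u, huX, huA, huN⟩ := mem_Kset.1 hX
  obtain ⟨hYR, hYc, hAY, v, hvY, hvA, hvN⟩ := mem_Kset.1 hY
  have hA' := mem_tight.1 hA
  obtain ⟨z, hz⟩ := hA'.2.1
  by_contra hno
  have hW : s + 2 ≤ (Nin T (X ∪ Y)).card := by
    by_contra hc
    exact hno (mem_Kset.2 ⟨union_subset hXR hYR, by omega, hAX.trans subset_union_left, u,
      mem_union_left _ huX, huA, huN⟩)
  have hsm := submod T X Y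
  have hzXY : z ∈ X ∩ Y := mem_inter.2 ⟨hAX hz, hAY hz⟩
  have hint : X ∩ Y ∈ tight Z s T :=
    mem_tight.2 ⟨inter_subset_left.trans (hXR.trans hRZ), ⟨z, hzXY⟩, by omega⟩
  have hIA : X ∩ Y ⊆ A := hAmax _ hint ⟨z, mem_inter.2 ⟨hz, hzXY⟩⟩
  have hIeq : X ∩ Y = A := Subset.antisymm hIA (subset_inter hAX hAY)
  have hge := hT.ge (X ∩ Y) (inter_subset_left.trans (hXR.trans hRZ)) ⟨z, hzXY⟩
  have huY : u ∉ Y := fun h => huA (hIA (mem_inter.2 ⟨huX, h⟩))
  have hvX : v ∉ X := fun h => hvA (hIA (mem_inter.2 ⟨h, hvY⟩))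
  have huNY : u ∉ Nin T Y := by
    intro huNY
    have h1 := submod_strict T X Y u huNY (by rw [hIeq]; exact huN)
      (fun h => (mem_Nin.1 h).1 (mem_union_left _ huX))
    omega
  have hvNX : v ∉ Nin T X := by
    intro hvNX
    have h1 := submod_strict T Y X v hvNX (by rw [inter_comm, hIeq]; exact hvN)
      (fun h => (mem_Nin.1 h).1 (mem_union_left _ hvY))
    rw [inter_comm, union_comm] at h1
    omega
  have hne : u ≠ v := by
    rintro rfl
    exact hvX huX
  rcases hT.tot u (hRZ (hXR huX)) v (hRZ (hYR hvY)) hne with h | h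
  · exact huNY (mem_Nin.2 ⟨huY, v, hvY, h⟩)
  · exact hvNX (mem_Nin.2 ⟨hvX, u, huX, h⟩)

/-- the assignment of a near-tight set to a vertex -/
structure Asg (Z : Finset V) (s : ℕ) (T : V → V → Prop) (R : Finset V) (z : V)
    (X : Finset V) : Prop where
  mem : z ∈ X
  sub : X ⊆ R
  near : (Nin T X).card ≤ s + 1
  absT : ∀ B ∈ tight Z s T, (B ∩ X).Nonempty → B ⊆ X
  absN : ∀ B ⊆ R, (Nin T B).card ≤ s + 1 → ∀ q ∈ B, q ∈ X → Out Z s T q → B ⊆ X
  cas : Out Z s T z ∨ ∃ A ∈ tight Z s T, z ∈ A ∧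
    (∀ Y ∈ tight Z s T, (A ∩ Y).Nonempty → Y ⊆ A) ∧
    A ⊆ X ∧ ((X ∈ Kset s T R A ∧ ∀ W ∈ Kset s T R A, W ⊆ X) ∨ (Kset s T R A = ∅ ∧ X = A))

theorem exists_asg {D : V → V → Prop} {Z : Finset V} {s : ℕ} {T : V → V → Prop}
    (hT : Good D Z s T) {R : Finset V} (hRZ : R ⊆ Z) (hU : ∀ A ∈ tight Z s T, A ⊆ R)
    {z : V} (hz : Out Z s T z → ∃ M ⊆ R, z ∈ M ∧ (Nin T M).card ≤ s + 1) :
    ∃ X, Asg Z s T R z X := by
  by_cases hout : Out Z s T z
  · obtain ⟨M, hMR, hzM, hMc⟩ := hz hout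
    obtain ⟨X, hX, hmax⟩ := exists_max_image
      (R.powerset.filter (fun X => z ∈ X ∧ (Nin T X).card ≤ s + 1)) (fun X => X.card)
      ⟨M, by simp only [mem_filter, mem_powerset]; exact ⟨hMR, hzM, hMc⟩⟩
    simp only [mem_filter, mem_powerset] at hX hmax
    have habs : ∀ B ⊆ R, (Nin T (B ∪ X)).card ≤ s + 1 → B ⊆ X := by
      intro B hB hc
      have h1 := hmax (B ∪ X) ⟨union_subset hB hX.1, mem_union_right _ hX.2.1, hc⟩
      have h2 := eq_of_subset_of_card_le (subset_union_right (s₁ := B) (s₂ := X)) h1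
      rw [h2]
      exact subset_union_left
    refine ⟨X, hX.2.1, hX.1, hX.2.2, ?_, ?_, Or.inl hout⟩
    · intro B hB hne
      exact habs B (hU B hB) (near_union_tight hT hB hne hX.2.2)
    · intro B hB hc q hqB hqX hq
      exact habs B hB (hq.inter (hB.trans hRZ) hqB (hX.1.trans hRZ) hqX hc hX.2.2).2
  · obtain ⟨A, hA, hzA, hAmax⟩ := exists_largest hT hout
    by_cases hK : (Kset s T R A).Nonempty
    · obtain ⟨X, hX, hmax⟩ := exists_max_image (Kset s T R A) (fun X => X.card) hK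
      have hX' := mem_Kset.1 hX
      obtain ⟨hXR, hXc, hAX, u, huX, huA, huN⟩ := hX'
      have habs : ∀ B ⊆ R, (Nin T (B ∪ X)).card ≤ s + 1 → B ⊆ X := by
        intro B hB hc
        have h1 := hmax (B ∪ X) (mem_Kset.2 ⟨union_subset hB hXR, hc,
          hAX.trans subset_union_right, u, mem_union_right _ huX, huA, huN⟩)
        have h2 := eq_of_subset_of_card_le (subset_union_right (s₁ := B) (s₂ := X)) h1
        rw [h2]
        exact subset_union_left
      refine ⟨X, hAX hzA, hXR, hXc, ?_, ?_, Or.inr ⟨A, hA, hzA, hAmax, hAX,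
        Or.inl ⟨hX, ?_⟩⟩⟩
      · intro B hB hne
        exact habs B (hU B hB) (near_union_tight hT hB hne hXc)
      · intro B hB hc q hqB hqX hq
        exact habs B hB (hq.inter (hB.trans hRZ) hqB (hXR.trans hRZ) hqX hc hXc).2
      · intro W hW
        have h1 := Kset_union hT hRZ hA hAmax hW hX
        exact habs W (mem_Kset.1 hW).1 (mem_Kset.1 h1).2.1
    · have hA' := mem_tight.1 hA
      refine ⟨A, hzA, hU A hA, by omega, ?_, ?_, Or.inr ⟨A, hA, hzA, hAmax, Subset.rfl,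
        Or.inr ⟨not_nonempty_iff_eq_empty.1 hK, rfl⟩⟩⟩
      · intro B hB hne
        exact hAmax B hB (by rw [inter_comm]; exact hne)
      · intro B hB hc q hqB hqA hq
        exact absurd hqA (hq A hA)

/-- the key property of the assignment -/
theorem Asg.star {Z : Finset V} {s : ℕ} {T : V → V → Prop}
    {R : Finset V} {z v : V} {X Y : Finset V}
    (hX : Asg Z s T R z X) (hY : Asg Z s T R v Y) (hvX : v ∉ X) (hzY : z ∈ Y) :
    v ∈ Nin T X := by
  rcases hX.cas with hout | ⟨A, hA, hzA, hAmax, hAX, hK⟩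
  · exact absurd (hX.absN Y hY.sub hY.near z hzY hX.mem hout hY.mem) hvX
  · by_contra hvN
    have hAY : A ⊆ Y := hY.absT A hA ⟨z, mem_inter.2 ⟨hzA, hzY⟩⟩
    have hvA : v ∉ A := fun h => hvX (hAX h)
    have hvNA : v ∉ Nin T A := by
      intro h
      rw [mem_Nin] at h
      obtain ⟨-, x, hx, hTx⟩ := h
      exact hvN (mem_Nin.2 ⟨hvX, x, hAX hx, hTx⟩)
    have hYK : Y ∈ Kset s T R A :=
      mem_Kset.2 ⟨hY.sub, hY.near, hAY, v, hY.mem, hvA, hvNA⟩
    rcases hK with ⟨-, hmax⟩ | ⟨hemp, -⟩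
    · exact hvX (hmax Y hYK hY.mem)
    · rw [hemp] at hYK
      exact absurd hYK (notMem_empty _)

/-- two vertices with different assigned sets see each other -/
theorem Asg.dich {D : V → V → Prop} {Z : Finset V} {s : ℕ} {T : V → V → Prop}
    (hT : Good D Z s T) {R : Finset V} (hRZ : R ⊆ Z) {z v : V} {X Y : Finset V}
    (hX : Asg Z s T R z X) (hY : Asg Z s T R v Y) :
    X = Y ∨ v ∈ Nin T X ∨ z ∈ Nin T Y := by
  by_contra hno
  push Not at hno
  obtain ⟨hne, hvN, hzN⟩ := hno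
  have hsep : z ∉ Y → v ∉ X → False := by
    intro hzY hvX
    have hzv : z ≠ v := by
      rintro rfl
      exact hzY hY.mem
    rcases hT.tot z (hRZ (hX.sub hX.mem)) v (hRZ (hY.sub hY.mem)) hzv with h | h
    · exact hzN (mem_Nin.2 ⟨hzY, v, hY.mem, h⟩)
    · exact hvN (mem_Nin.2 ⟨hvX, z, hX.mem, h⟩)
  have hvX : v ∈ X := by
    by_contra hvX
    by_cases hzY : z ∈ Y
    · exact hvN (hX.star hY hvX hzY)
    · exact hsep hzY hvX
  have hzY : z ∈ Y := by
    by_contra hzY
    exact hzN (hY.star hX hzY hvX)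
  apply hne
  rcases hX.cas with hout | ⟨A, hA, hzA, hAmax, hAX, hK⟩
  · exact Subset.antisymm (hY.absN X hX.sub hX.near z hX.mem hzY hout)
      (hX.absN Y hY.sub hY.near z hzY hX.mem hout)
  rcases hY.cas with hout | ⟨A', hA', hvA', hAmax', hAY', hK'⟩
  · exact Subset.antisymm (hY.absN X hX.sub hX.near v hvX hY.mem hout)
      (hX.absN Y hY.sub hY.near v hY.mem hvX hout)
  by_cases hAA : (A ∩ A').Nonempty
  · -- the same maximal tight set
    have h1 : A' ⊆ A := hAmax A' hA' hAA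
    have h2 : A ⊆ A' := hAmax' A hA (by rw [inter_comm]; exact hAA)
    have h3 : A = A' := Subset.antisymm h2 h1
    subst h3
    rcases hK with ⟨hXK, hmax⟩ | ⟨hemp, hXA⟩
    · rcases hK' with ⟨hYK, hmax'⟩ | ⟨hemp', hYA⟩
      · exact Subset.antisymm (hmax' X hXK) (hmax Y hYK)
      · rw [hemp'] at hXK
        exact absurd hXK (notMem_empty _)
    · rcases hK' with ⟨hYK, hmax'⟩ | ⟨hemp', hYA⟩
      · rw [hemp] at hYK
        exact absurd hYK (notMem_empty _)
      · rw [hXA, hYA]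
  · -- different maximal tight sets
    have hvA : v ∉ A := fun h => hAA ⟨v, mem_inter.2 ⟨h, hvA'⟩⟩
    have hzA' : z ∉ A' := fun h => hAA ⟨z, mem_inter.2 ⟨hzA, h⟩⟩
    have hnt : s + 1 ≤ (Nin T (X ∩ Y)).card := by
      by_contra hc
      have ht : X ∩ Y ∈ tight Z s T :=
        mem_tight.2 ⟨inter_subset_left.trans (hX.sub.trans hRZ),
          ⟨z, mem_inter.2 ⟨hX.mem, hzY⟩⟩, by omega⟩
      have h4 := hAmax _ ht ⟨z, mem_inter.2 ⟨hzA, mem_inter.2 ⟨hX.mem, hzY⟩⟩⟩
      exact hvA (h4 (mem_inter.2 ⟨hvX, hY.mem⟩))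
    have hsm := submod T X Y
    have hnX := hX.near
    have hnY := hY.near
    have hun : (Nin T (X ∪ Y)).card ≤ s + 1 := by omega
    have key1 : Y ⊆ X := by
      rcases hK with ⟨hXK, hmax⟩ | ⟨hemp, hXA⟩
      · obtain ⟨-, -, -, u, huX, huA, huN⟩ := mem_Kset.1 hXK
        exact subset_union_right.trans (hmax (X ∪ Y) (mem_Kset.2
          ⟨union_subset hX.sub hY.sub, hun, hAX.trans subset_union_left, u,
            mem_union_left _ huX, huA, huN⟩))
      · rw [hXA] at hvX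
        exact absurd hvX hvA
    have key2 : X ⊆ Y := by
      rcases hK' with ⟨hYK, hmax⟩ | ⟨hemp, hYA⟩
      · obtain ⟨-, -, -, u, huY, huA, huN⟩ := mem_Kset.1 hYK
        exact subset_union_left.trans (hmax (X ∪ Y) (mem_Kset.2
          ⟨union_subset hX.sub hY.sub, hun, hAY'.trans subset_union_right, u,
            mem_union_right _ huY, huA, huN⟩))
      · rw [hYA] at hzY
        exact absurd hzY hzA'
    exact Subset.antisymm key2 key1

/-- the numerical inequality behind the counting -/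
theorem numeric {ι : Type*} (I : Finset ι) (κ b : ι → ℤ) (s r : ℤ) (hs : 1 ≤ s)
    (hκ : ∀ i ∈ I, 1 ≤ κ i) (hb : ∀ i ∈ I, 0 ≤ b i) (hr : ∑ i ∈ I, κ i = r)
    (h2 : ∀ i ∈ I, 2 * s + 1 ≤ r - κ i + b i) (h3 : 2 * s + 1 ≤ ∑ i ∈ I, b i)
    (h1 : ∑ i ∈ I, κ i * (r - κ i + 2 * b i) ≤ (2 * s + 2) * r) :
    r = 2 * s + 1 ∧ (∀ i ∈ I, b i = 1) ∧
      (2 * s + 2) * r ≤ ∑ i ∈ I, κ i * (r - κ i + 2 * b i) := by
  -- the sum of the excesses
  have hθ : ∑ i ∈ I, κ i * (r - κ i + 2 * b i) - (2 * s + 2) * r =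
      ∑ i ∈ I, κ i * (r - κ i + 2 * b i - (2 * s + 2)) := by
    rw [← hr, mul_sum, ← sum_sub_distrib]
    apply sum_congr rfl
    intro i _
    ring
  have hθ' : ∑ i ∈ I, κ i * (r - κ i + 2 * b i - (2 * s + 2)) ≤ 0 := by linarith
  by_cases hρ : r ≤ 2 * s + 1
  · have hb1 : ∀ i ∈ I, 1 ≤ b i := by
      intro i hi
      have := h2 i hi
      have := hκ i hi
      linarith
    have hterm : ∀ i ∈ I, 0 ≤ κ i * (r - κ i + 2 * b i - (2 * s + 2)) := by
      intro i hi
      apply mul_nonneg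
      · linarith [hκ i hi]
      · linarith [h2 i hi, hb1 i hi]
    have hz : ∑ i ∈ I, κ i * (r - κ i + 2 * b i - (2 * s + 2)) = 0 :=
      le_antisymm hθ' (sum_nonneg hterm)
    have hz' := (sum_eq_zero_iff_of_nonneg hterm).1 hz
    have hb2 : ∀ i ∈ I, b i = 1 := by
      intro i hi
      have h4 := hz' i hi
      have h5 := hκ i hi
      rcases mul_eq_zero.1 h4 with h6 | h6
      · linarith
      · linarith [h2 i hi, hb1 i hi]
    refine ⟨?_, hb2, by linarith⟩
    have hne : I.Nonempty := by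
      rw [nonempty_iff_ne_empty]
      rintro rfl
      simp at h3
      linarith
    obtain ⟨i, hi⟩ := hne
    have h4 := h2 i hi
    have h5 := hb2 i hi
    have h6 := hκ i hi
    linarith
  · exfalso
    push Not at hρ
    have hterm : ∀ i ∈ I, - κ i + (if 1 ≤ b i then r - (2 * s + 1) - 1 + 2 * b i else 0) ≤
        κ i * (r - κ i + 2 * b i - (2 * s + 2)) := by
      intro i hi
      have h4 := hκ i hi
      have h5 := h2 i hi
      have h6 := hb i hi
      by_cases h7 : 1 ≤ b i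
      · rw [if_pos h7]
        nlinarith [mul_nonneg (sub_nonneg.2 h4)
          (by linarith : (0 : ℤ) ≤ r - κ i + 2 * b i - (2 * s + 2))]
      · rw [if_neg h7]
        have h8 : b i = 0 := by omega
        rw [h8] at h5 ⊢
        nlinarith [mul_nonneg (by linarith : (0 : ℤ) ≤ κ i)
          (by linarith : (0 : ℤ) ≤ r - κ i + 0 - (2 * s + 1))]
    have hsum := sum_le_sum hterm
    rw [sum_add_distrib, sum_neg_distrib, hr] at hsum
    -- the classes with `b i ≥ 1`
    have hex : ∃ i ∈ I, 1 ≤ b i := by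
      by_contra hno
      push Not at hno
      have : ∑ i ∈ I, b i ≤ 0 := sum_nonpos (fun i hi => by
        have := hno i hi
        omega)
      linarith
    obtain ⟨i0, hi0, hbi0⟩ := hex
    have hlow : (r - (2 * s + 1) - 1) + 2 * ∑ i ∈ I, b i ≤
        ∑ i ∈ I, (if 1 ≤ b i then r - (2 * s + 1) - 1 + 2 * b i else 0) := by
      have hsplit : ∀ i ∈ I, (if i = i0 then r - (2 * s + 1) - 1 else 0) + 2 * b i ≤
          (if 1 ≤ b i then r - (2 * s + 1) - 1 + 2 * b i else 0) := by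
        intro i hi
        have h6 := hb i hi
        by_cases h7 : 1 ≤ b i
        · rw [if_pos h7]
          split_ifs <;> omega
        · rw [if_neg h7]
          have h8 : i ≠ i0 := by
            rintro rfl
            exact h7 hbi0
          rw [if_neg h8]
          omega
      have h9 := sum_le_sum hsplit
      rw [sum_add_distrib, sum_ite_eq' I i0, if_pos hi0, ← mul_sum] at h9
      exact h9
    linarith

theorem no_tight {D : V → V → Prop} {Z : Finset V} {s : ℕ} {T : V → V → Prop}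
    {L : Finset V} (hs : 1 ≤ s) (hS : StablePair D Z s T L)
    (hcl : ∀ X, Rigid D Z s T X → ∀ w ∈ Z, w ∉ X → w ∉ Nin T X → (∃ p ∈ X, D w p) →
        Out Z s T w → w ∈ L)
    (hD : ∀ X ⊆ Z, X.Nonempty → 2 * s + 1 ≤ (Nin D X).card) : tight Z s T = ∅ := by
  by_contra hne
  obtain ⟨A0, hA0⟩ := nonempty_iff_ne_empty.2 hne
  have hMG := hS.1
  have hT := hS.1.1
  have hLex : ∀ y, ∃ M, y ∈ L → Stab D Z s T y M := by
    intro y
    by_cases hy : y ∈ L
    · obtain ⟨-, M, hM⟩ := hS.2.2 y hy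
      exact ⟨M, fun _ => hM⟩
    · exact ⟨∅, fun h => absurd h hy⟩
  choose M hM using hLex
  have hMin : ∀ y ∈ L, IsMin Z s T y (M y) := fun y hy => hM y hy T Relation.ReflTransGen.refl
  obtain ⟨R, hR⟩ : ∃ R : Finset V, R = (tight Z s T).biUnion id ∪ L.biUnion M := ⟨_, rfl⟩
  have hU : ∀ A ∈ tight Z s T, A ⊆ R := by
    intro A hA x hx
    rw [hR, mem_union, mem_biUnion]
    exact Or.inl ⟨A, hA, hx⟩
  have hMR : ∀ y ∈ L, M y ⊆ R := by
    intro y hy x hx
    rw [hR, mem_union, mem_biUnion, mem_biUnion]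
    exact Or.inr ⟨y, hy, hx⟩
  have hRmem : ∀ x ∈ R, (∃ A ∈ tight Z s T, x ∈ A) ∨ ∃ y ∈ L, x ∈ M y := by
    intro x hx
    rw [hR, mem_union, mem_biUnion, mem_biUnion] at hx
    exact hx
  have hRZ : R ⊆ Z := by
    intro x hx
    rcases hRmem x hx with ⟨A, hA, hxA⟩ | ⟨y, hy, hxy⟩
    · exact (mem_tight.1 hA).1 hxA
    · exact (hMin y hy).1 hxy
  have hRne : R.Nonempty := ((mem_tight.1 hA0).2.1).mono (hU A0 hA0)
  have hAsg : ∀ z, ∃ X, z ∈ R → Asg Z s T R z X := by
    intro z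
    by_cases hz : z ∈ R
    · obtain ⟨X, hX⟩ := exists_asg hT hRZ hU (z := z) (by
        intro hout
        rcases hRmem z hz with ⟨A, hA, hxA⟩ | ⟨y, hy, hzy⟩
        · exact absurd hxA (hout A hA)
        · exact ⟨M y, hMR y hy, hzy, (hMin y hy).2.2.1⟩)
      exact ⟨X, fun _ => hX⟩
    · exact ⟨∅, fun h => absurd h hz⟩
  choose X hX using hAsg
  -- the heads of the assigned sets lie in `R`
  have hheads : ∀ z ∈ R, ∀ v, v ∉ X z → v ∉ Nin T (X z) → (∃ q ∈ X z, D v q) → v ∈ R := by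
    rintro z hz v hvX hvN ⟨q, hq, hDq⟩
    have hvZ : v ∈ Z := by
      by_contra hvZ
      exact hvN (mem_Nin.2 ⟨hvX, q, hq, hT.out v q hDq (fun h => hvZ h.1)⟩)
    by_cases hout : Out Z s T v
    · have key : ∀ B, Rigid D Z s T B → B ⊆ X z → q ∈ B → v ∈ R := by
        intro B hB hBX hqB
        have hvL : v ∈ L := by
          refine hcl B hB v hvZ (fun h => hvX (hBX h)) ?_ ⟨q, hqB, hDq⟩ hout
          intro h
          obtain ⟨-, x, hx, hTx⟩ := mem_Nin.1 h
          exact hvN (mem_Nin.2 ⟨hvX, x, hBX hx, hTx⟩)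
        exact hMR v hvL (hMin v hvL).2.1
      by_cases hqout : Out Z s T q
      · rcases hRmem q ((hX z hz).sub hq) with ⟨A, hA, hxA⟩ | ⟨y, hy, hqy⟩
        · exact absurd hxA (hqout A hA)
        · exact key (M y) ((hM y hy).rigid hMG (hS.2.2 y hy).1)
            ((hX z hz).absN (M y) (hMR y hy) (hMin y hy).2.2.1 q hqy hq hqout) hqy
      · obtain ⟨B, hB, hqB⟩ := not_out.1 hqout
        exact key B (tight_rigid hMG hB) ((hX z hz).absT B hB ⟨q, mem_inter.2 ⟨hqB, hq⟩⟩) hqB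
    · obtain ⟨B, hB, hvB⟩ := not_out.1 hout
      exact hU B hB hvB
  -- classes
  let κ : Finset V → ℕ := fun Y => (R.filter (fun z => X z = Y)).card
  let bo : Finset V → ℕ := fun Y => (Nin T Y \ R).card
  let bi : Finset V → ℕ := fun Y => (R.filter (fun v => v ∈ Nin T Y)).card
  have hbb : ∀ Y, bi Y + bo Y = (Nin T Y).card := by
    intro Y
    have h1 : R.filter (fun v => v ∈ Nin T Y) = Nin T Y ∩ R := by
      ext v
      simp [and_comm]
    show (R.filter (fun v => v ∈ Nin T Y)).card + (Nin T Y \ R).card = _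
    rw [h1, add_comm]
    exact card_sdiff_add_card_inter _ _
  have hκX : ∀ z ∈ R, κ (X z) ≤ (X z).card := by
    intro z hz
    apply card_le_card
    intro v hv
    rw [mem_filter] at hv
    rw [← hv.2]
    exact (hX v hv.1).mem
  have hκpos : ∀ z ∈ R, 1 ≤ κ (X z) := by
    intro z hz
    exact card_pos.2 ⟨z, mem_filter.2 ⟨hz, rfl⟩⟩
  -- (C2)
  have hC2 : ∀ z ∈ R, 2 * s + 1 + (X z).card ≤ R.card + bo (X z) := by
    intro z hz
    have hXz := hX z hz
    have h1 : Nin D (X z) ⊆ (R \ X z) ∪ (Nin T (X z) \ R) := by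
      intro v hv
      have h2 := mem_Nin.1 hv
      rw [mem_union, mem_sdiff, mem_sdiff]
      by_cases hvN : v ∈ Nin T (X z)
      · by_cases hvR : v ∈ R
        · exact Or.inl ⟨hvR, h2.1⟩
        · exact Or.inr ⟨hvN, hvR⟩
      · exact Or.inl ⟨hheads z hz v h2.1 hvN h2.2, h2.1⟩
    have h2 := card_le_card h1
    have h3 := card_union_le (R \ X z) (Nin T (X z) \ R)
    have h4 := hD (X z) (hXz.sub.trans hRZ) ⟨z, hXz.mem⟩
    have h5 := card_sdiff_add_card_eq_card hXz.sub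
    show _ ≤ R.card + (Nin T (X z) \ R).card
    omega
  -- (C3)
  have hC3 : 2 * s + 1 ≤ ∑ Y ∈ R.image X, bo Y := by
    have h1 : Nin D R ⊆ (R.image X).biUnion (fun Y => Nin T Y \ R) := by
      intro v hv
      obtain ⟨hvR, q, hq, hDq⟩ := mem_Nin.1 hv
      have hvX : v ∉ X q := fun h => hvR ((hX q hq).sub h)
      have hvN : v ∈ Nin T (X q) := by
        by_contra hvN
        exact hvR (hheads q hq v hvX hvN ⟨q, (hX q hq).mem, hDq⟩)
      rw [mem_biUnion]
      exact ⟨X q, mem_image_of_mem _ hq, mem_sdiff.2 ⟨hvN, hvR⟩⟩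
    exact (hD R hRZ hRne).trans ((card_le_card h1).trans card_biUnion_le)
  -- counting pairs
  have hpairs : ∑ z ∈ R, (R.filter (fun v => X v ≠ X z)).card ≤ 2 * ∑ z ∈ R, bi (X z) := by
    have h1 : ∑ z ∈ R, (R.filter (fun v => X v ≠ X z)).card ≤
        ∑ z ∈ R, (∑ v ∈ R, ((if v ∈ Nin T (X z) then 1 else 0) +
          (if z ∈ Nin T (X v) then 1 else 0))) := by
      apply sum_le_sum
      intro z hz
      rw [card_filter]
      apply sum_le_sum
      intro v hv
      rcases (hX z hz).dich hT hRZ (hX v hv) with h | h | h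
      · rw [if_neg (by rw [ne_eq, not_not]; exact h.symm)]
        exact Nat.zero_le _
      · rw [if_pos h]
        split_ifs <;> omega
      · rw [if_pos h]
        split_ifs <;> omega
    have h2 : ∑ z ∈ R, (∑ v ∈ R, ((if v ∈ Nin T (X z) then 1 else 0) +
          (if z ∈ Nin T (X v) then 1 else 0))) = 2 * ∑ z ∈ R, bi (X z) := by
      have h3 : ∑ z ∈ R, bi (X z) =
          ∑ z ∈ R, ∑ v ∈ R, (if v ∈ Nin T (X z) then 1 else 0) := by
        apply sum_congr rfl
        intro z _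
        exact card_filter _ _
      have h4 : ∑ z ∈ R, ∑ v ∈ R, (if z ∈ Nin T (X v) then 1 else 0) =
          ∑ z ∈ R, ∑ v ∈ R, (if v ∈ Nin T (X z) then 1 else 0) := sum_comm
      simp only [sum_add_distrib]
      rw [h4, ← h3]
      ring
    rw [← h2]
    exact h1
  have hcomp : ∀ z ∈ R, (R.filter (fun v => X v ≠ X z)).card + κ (X z) = R.card := by
    intro z _
    show (R.filter (fun v => ¬ X v = X z)).card + (R.filter (fun v => X v = X z)).card = _
    rw [add_comm]
    exact card_filter_add_card_filter_not _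
  -- to integers
  have hfib : ∀ g : Finset V → ℤ, ∑ z ∈ R, g (X z) = ∑ Y ∈ R.image X, (κ Y : ℤ) * g Y := by
    intro g
    rw [← sum_fiberwise_of_maps_to (s := R) (t := R.image X) (g := X)
      (fun z hz => mem_image_of_mem _ hz)]
    apply sum_congr rfl
    intro Y _
    rw [sum_congr rfl (g := fun _ => g Y) (by
      intro z hz
      rw [(mem_filter.1 hz).2]), sum_const, nsmul_eq_mul]
  have hr : ∑ Y ∈ R.image X, (κ Y : ℤ) = (R.card : ℤ) := by
    have h1 := hfib (fun _ => 1)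
    simp only [mul_one, sum_const, nsmul_eq_mul] at h1
    exact h1.symm
  have hle : ∑ z ∈ R, ((R.card : ℤ) - κ (X z) + 2 * bo (X z)) ≤
      ∑ z ∈ R, (2 * (bi (X z) : ℤ) + 2 * bo (X z)) := by
    have h1 : ∑ z ∈ R, ((R.card : ℤ) - κ (X z)) ≤ 2 * ∑ z ∈ R, (bi (X z) : ℤ) := by
      have h2 : ∑ z ∈ R, ((R.card : ℤ) - κ (X z)) =
          ((∑ z ∈ R, (R.filter (fun v => X v ≠ X z)).card : ℕ) : ℤ) := by
        push_cast
        apply sum_congr rfl
        intro z hz
        have := hcomp z hz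
        omega
      rw [h2]
      exact_mod_cast hpairs
    rw [sum_add_distrib, sum_add_distrib]
    rw [mul_sum] at h1
    linarith
  have hle2 : ∑ z ∈ R, (2 * (bi (X z) : ℤ) + 2 * bo (X z)) ≤ ∑ _z ∈ R, (2 * (s : ℤ) + 2) := by
    apply sum_le_sum
    intro z hz
    have h1 := hbb (X z)
    have h2 := (hX z hz).near
    omega
  have hC1 : ∑ Y ∈ R.image X, (κ Y : ℤ) * ((R.card : ℤ) - κ Y + 2 * bo Y) ≤
      (2 * (s : ℤ) + 2) * R.card := by
    rw [← hfib (fun Y => (R.card : ℤ) - κ Y + 2 * bo Y)]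
    refine hle.trans (hle2.trans ?_)
    rw [sum_const, nsmul_eq_mul]
    linarith
  obtain ⟨g1, g2, g3⟩ := numeric (R.image X) (fun Y => (κ Y : ℤ)) (fun Y => (bo Y : ℤ))
    (s : ℤ) (R.card : ℤ) (by exact_mod_cast hs)
    (by
      intro Y hY
      obtain ⟨z, hz, rfl⟩ := mem_image.1 hY
      exact_mod_cast hκpos z hz)
    (by
      intro Y _
      exact Int.natCast_nonneg _)
    hr
    (by
      intro Y hY
      obtain ⟨z, hz, rfl⟩ := mem_image.1 hY
      have h1 := hC2 z hz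
      have h2 := hκX z hz
      omega)
    (by exact_mod_cast hC3)
    hC1
  -- equality: every assigned set has exactly `s+1` in-neighbours
  obtain ⟨z, hz0⟩ := (mem_tight.1 hA0).2.1
  have hzR : z ∈ R := hU A0 hA0 hz0
  have hfz : (Nin T (X z)).card = s + 1 := by
    by_contra hc
    have hlt : ∑ z ∈ R, (2 * (bi (X z) : ℤ) + 2 * bo (X z)) <
        ∑ _z ∈ R, (2 * (s : ℤ) + 2) := by
      apply sum_lt_sum
      · intro y hy
        have h1 := hbb (X y)
        have h2 := (hX y hy).near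
        omega
      · refine ⟨z, hzR, ?_⟩
        have h1 := hbb (X z)
        have h2 := (hX z hzR).near
        omega
    have h3 := g3
    rw [← hfib (fun Y => (R.card : ℤ) - κ Y + 2 * bo Y)] at h3
    rw [sum_const, nsmul_eq_mul] at hlt
    linarith
  have hb1 := g2 (X z) (mem_image_of_mem _ hzR)
  have hc1 := hC2 z hzR
  have hXz1 : (X z).card ≤ 1 := by
    have hb2 : bo (X z) = 1 := by exact_mod_cast hb1
    have hr2 : R.card = 2 * s + 1 := by exact_mod_cast g1
    omega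
  have hXz : X z = {z} := by
    have h1 : ({z} : Finset V) ⊆ X z := singleton_subset_iff.2 (hX z hzR).mem
    exact (eq_of_subset_of_card_le h1 (by rw [card_singleton]; exact hXz1)).symm
  have hA0X : A0 ⊆ X z := (hX z hzR).absT A0 hA0 ⟨z, mem_inter.2 ⟨hz0, (hX z hzR).mem⟩⟩
  have hA0eq : A0 = X z := by
    apply Subset.antisymm hA0X
    rw [hXz]
    exact singleton_subset_iff.2 hz0
  have hA0c := (mem_tight.1 hA0).2.2
  rw [hA0eq, hfz] at hA0c
  omega

/-- the one-sided theorem for `k = 1` -/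
theorem one_sided_one (D : V → V → Prop) (Z : Finset V)
    (hsc : ∀ a ∈ Z, ∀ b ∈ Z, a ≠ b → D a b ∨ D b a)
    (hD : ∀ X ⊆ Z, X.Nonempty → 1 ≤ (Nin D X).card) :
    ∃ T, Good D Z 1 T := by
  -- a height function
  have hg : ∃ g : V → ℕ, ∀ z ∈ Z, ∃ p, g p < g z ∧ D p z := by
    let P : ℕ → Prop := fun m => ∃ Q : Finset V, Zᶜ ⊆ Q ∧ Q.card = m ∧
      ∃ g : V → ℕ, ∀ z ∈ Q, z ∈ Z → ∃ p ∈ Q, g p < g z ∧ D p z
    have hP : P (Zᶜ).card := ⟨Zᶜ, Subset.rfl, rfl, fun _ => 0, by
      intro z hz hz'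
      exact absurd hz' (mem_compl.1 hz)⟩
    have hbd : ∀ m, P m → m ≤ Fintype.card V := by
      rintro m ⟨Q, -, rfl, -⟩
      exact card_le_univ Q
    obtain ⟨m, hm, hmax⟩ : ∃ m, P m ∧ ∀ m', P m' → m' ≤ m :=
      ⟨Nat.findGreatest P (Fintype.card V), Nat.findGreatest_spec (hbd _ hP) hP,
        fun m' hm' => Nat.le_findGreatest (hbd m' hm') hm'⟩
    obtain ⟨Q, hQ, hQm, g, hgQ⟩ := hm
    have hQu : Q = univ := by
      by_contra hne
      have hX : (univ \ Q).Nonempty := by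
        rw [sdiff_nonempty]
        intro h
        exact hne (univ_subset_iff.1 h)
      have hXZ : univ \ Q ⊆ Z := by
        intro x hx
        by_contra hxZ
        exact (mem_sdiff.1 hx).2 (hQ (mem_compl.2 hxZ))
      obtain ⟨p, hp⟩ := card_pos.1 (hD _ hXZ hX)
      obtain ⟨hpX, x, hx, hpx⟩ := mem_Nin.1 hp
      have hpQ : p ∈ Q := by
        by_contra h
        exact hpX (mem_sdiff.2 ⟨mem_univ _, h⟩)
      have hxQ : x ∉ Q := (mem_sdiff.1 hx).2
      have hpx' : p ≠ x := by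
        rintro rfl
        exact hxQ hpQ
      have := hmax _ ⟨insert x Q, hQ.trans (subset_insert _ _), rfl,
        Function.update g x (g p + 1), by
          intro z hz hzZ
          rcases mem_insert.1 hz with rfl | hzQ
          · exact ⟨p, mem_insert_of_mem hpQ, by
              rw [Function.update_self, Function.update_of_ne hpx']
              omega, hpx⟩
          · obtain ⟨q, hq, hlt, hDq⟩ := hgQ z hzQ hzZ
            have hqx : q ≠ x := by
              rintro rfl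
              exact hxQ hq
            have hzx : z ≠ x := by
              rintro rfl
              exact hxQ hzQ
            exact ⟨q, mem_insert_of_mem hq, by
              rw [Function.update_of_ne hqx, Function.update_of_ne hzx]
              exact hlt, hDq⟩⟩
      rw [card_insert_of_notMem hxQ] at this
      omega
    refine ⟨g, ?_⟩
    intro z hz
    obtain ⟨p, -, h1, h2⟩ := hgQ z (by rw [hQu]; exact mem_univ z) hz
    exact ⟨p, h1, h2⟩
  obtain ⟨g, hg⟩ := hg
  let e := Fintype.equivFin V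
  let lt : V → V → Prop := fun a b => g a < g b ∨ (g a = g b ∧ e a < e b)
  have hltas : ∀ a b, lt a b → ¬ lt b a := by
    rintro a b (h | ⟨h, h'⟩) (h2 | ⟨h2, h2'⟩)
    · omega
    · omega
    · omega
    · exact lt_asymm h' h2'
  have hlttot : ∀ a b, a ≠ b → lt a b ∨ lt b a := by
    intro a b hab
    have hne : e a ≠ e b := fun h => hab (e.injective h)
    rcases lt_trichotomy (g a) (g b) with h | h | h
    · exact Or.inl (Or.inl h)
    · rcases lt_or_gt_of_ne hne with h' | h'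
      · exact Or.inl (Or.inr ⟨h, h'⟩)
      · exact Or.inr (Or.inr ⟨h.symm, h'⟩)
    · exact Or.inr (Or.inl h)
  refine ⟨fun a b => D a b ∧ (¬ (a ∈ Z ∧ b ∈ Z) ∨ (a ≠ b ∧ (D b a → lt a b))), ?_⟩
  refine ⟨fun a b h => h.1, fun a b h h' => ⟨h, Or.inl h'⟩, ?_, ?_, ?_⟩
  · rintro a ha b hb ⟨h1, h2⟩ ⟨h3, h4⟩
    have h5 := h2.resolve_left (fun h => h ⟨ha, hb⟩)
    have h6 := h4.resolve_left (fun h => h ⟨hb, ha⟩)
    exact hltas a b (h5.2 h3) (h6.2 h1)
  · intro a ha b hb hab
    rcases hlttot a b hab with h | h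
    · by_cases h1 : D a b
      · exact Or.inl ⟨h1, Or.inr ⟨hab, fun _ => h⟩⟩
      · have h2 := (hsc a ha b hb hab).resolve_left h1
        exact Or.inr ⟨h2, Or.inr ⟨hab.symm, fun h3 => absurd h3 h1⟩⟩
    · by_cases h1 : D b a
      · exact Or.inr ⟨h1, Or.inr ⟨hab.symm, fun _ => h⟩⟩
      · have h2 := (hsc a ha b hb hab).resolve_right h1
        exact Or.inl ⟨h2, Or.inr ⟨hab, fun h3 => absurd h3 h1⟩⟩
  · intro X hX hne
    obtain ⟨z, hz, hmin⟩ := exists_min_image X g hne
    obtain ⟨p, hp, hDp⟩ := hg z (hX hz)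
    have hpX : p ∉ X := by
      intro h
      have := hmin p h
      omega
    apply card_pos.2
    refine ⟨p, mem_Nin.2 ⟨hpX, z, hz, hDp, ?_⟩⟩
    by_cases h : p ∈ Z ∧ z ∈ Z
    · right
      refine ⟨?_, fun _ => Or.inl hp⟩
      rintro rfl
      exact hpX hz
    · exact Or.inl h

/-- the one-sided theorem with the sharp bound -/
theorem one_sided (D : V → V → Prop) (Z : Finset V) (k : ℕ) (hk : 1 ≤ k)
    (hsc : ∀ a ∈ Z, ∀ b ∈ Z, a ≠ b → D a b ∨ D b a)
    (hD : ∀ X ⊆ Z, X.Nonempty → 2 * k ≤ (Nin D X).card + 1) :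
    ∃ T, Good D Z k T := by
  have main : ∀ s, 1 ≤ s → s ≤ k → ∃ T, Good D Z s T := by
    intro s hs
    induction s, hs using Nat.le_induction with
    | base =>
      intro _
      exact one_sided_one D Z hsc (fun X hX hne => by
        have := hD X hX hne
        omega)
    | succ s hs1 ih =>
      intro hs
      obtain ⟨T0, hT0⟩ := ih (by omega)
      -- choose with the least number of tight sets
      have hex : ∃ m, ∃ T, Good D Z s T ∧ (tight Z s T).card = m := ⟨_, T0, hT0, rfl⟩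
      obtain ⟨T1, hT1, hc1⟩ := Nat.find_spec hex
      have hMG : MinGood D Z s T1 := by
        refine ⟨hT1, ?_⟩
        intro T' hT'
        rw [hc1]
        exact Nat.find_min' hex ⟨T', hT', rfl⟩
      obtain ⟨T, L, hS, hcl⟩ := exists_closed hMG
      have hempty := no_tight hs1 hS hcl (fun X hX hne => by
        have := hD X hX hne
        omega)
      refine ⟨T, hS.1.1.le, hS.1.1.out, hS.1.1.anti, hS.1.1.tot, ?_⟩
      intro X hX hne
      by_contra hc
      have : X ∈ tight Z s T := mem_tight.2 ⟨hX, hne, by omega⟩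
      rw [hempty] at this
      exact absurd this (notMem_empty _)
  exact main k hk le_rfl

end Pool.MP0a002eH20
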