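import Pool.Agent.Lib.MP_0a002e_co_h20.Flips

/-!
Stable families of smallest near-tight sets (helper20, MP_0a002e_co).
-/

open Finset
open scoped Classical

namespace Pool.MP0a002eH20

variable {V : Type*} [Fintype V]

/-- a set whose in-degree stays constant and at most `s+1` along all free flips -/
def Rigid (D : V → V → Prop) (Z : Finset V) (s : ℕ) (T : V → V → Prop) (X : Finset V) : Prop :=
  X ⊆ Z ∧ (Nin T X).card ≤ s + 1 ∧
    ∀ T', Relation.ReflTransGen (Step D Z s) T T' → (Nin T' X).card = (Nin T X).card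

theorem Rigid.step {D : V → V → Prop} {Z : Finset V} {s : ℕ} {T T' : V → V → Prop}
    {X : Finset V} (h : Rigid D Z s T X) (hs : Step D Z s T T') :
    Rigid D Z s T' X ∧ Nin T' X = Nin T X := by
  have h1 := h.2.2 T' (Relation.ReflTransGen.single hs)
  refine ⟨⟨h.1, by rw [h1]; exact h.2.1, ?_⟩, ?_⟩
  · intro T'' h'
    rw [h1]
    exact h.2.2 T'' (Relation.ReflTransGen.head hs h')
  · obtain ⟨p, hp, v, hv, hpv, hvp, hfree, rfl⟩ := hs
    have hvX : v ∉ X := by
      intro hvX
      have := hfree X h.1 hvX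
      have := h.2.1
      omega
    exact (eq_of_subset_of_card_le (Nin_flip_ge hvX) h1.le).symm

theorem Rigid.reach {D : V → V → Prop} {Z : Finset V} {s : ℕ} {T T' : V → V → Prop}
    {X : Finset V} (h : Rigid D Z s T X) (hs : Relation.ReflTransGen (Step D Z s) T T') :
    Rigid D Z s T' X ∧ Nin T' X = Nin T X := by
  induction hs with
  | refl => exact ⟨h, rfl⟩
  | tail _ h2 ih =>
    obtain ⟨g1, g2⟩ := ih.1.step h2
    exact ⟨g1, g2.trans ih.2⟩

/-- the head of an arc of `D` into a rigid set is never free -/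
theorem Rigid.head_not_free {D : V → V → Prop} {Z : Finset V} {s : ℕ} {T T' : V → V → Prop}
    {X : Finset V} (hT : Good D Z s T') (h : Rigid D Z s T X)
    (hs : Relation.ReflTransGen (Step D Z s) T T')
    {w p : V} (hwZ : w ∈ Z) (hwX : w ∉ X) (hwN : w ∉ Nin T X) (hp : p ∈ X) (hD : D w p) :
    ¬ Free Z s T' w := by
  intro hf
  obtain ⟨g1, g2⟩ := h.reach hs
  have hne : p ≠ w := by
    rintro rfl
    exact hwX hp
  have hpZ := h.1 hp
  have hwN' : w ∉ Nin T' X := by rw [g2]; exact hwN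
  have hTpw : T' p w := by
    rcases hT.tot p hpZ w hwZ hne with h' | h'
    · exact h'
    · exact absurd (mem_Nin.2 ⟨hwX, p, hp, h'⟩) hwN'
  have hst : Step D Z s T' (flip T' p w) := ⟨p, hpZ, w, hwZ, hTpw, hD, hf, rfl⟩
  obtain ⟨-, g3⟩ := g1.step hst
  apply hwN'
  rw [← g3]
  exact mem_Nin_flip hwX hp

theorem tight_rigid {D : V → V → Prop} {Z : Finset V} {s : ℕ} {T : V → V → Prop}
    (hT : MinGood D Z s T) {A : Finset V} (hA : A ∈ tight Z s T) : Rigid D Z s T A := by
  have h1 := mem_tight.1 hA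
  refine ⟨h1.1, by omega, ?_⟩
  intro T' h'
  obtain ⟨g1, g2⟩ := hT.reach h'
  rw [← g2] at hA
  have h2 := mem_tight.1 hA
  have h3 := hT.1.ge A h1.1 h1.2.1
  have h4 := g1.1.ge A h1.1 h1.2.1
  omega

/-- `y` has the same smallest near-tight set `M` along all free flips -/
def Stab (D : V → V → Prop) (Z : Finset V) (s : ℕ) (T : V → V → Prop) (y : V)
    (M : Finset V) : Prop :=
  ∀ T', Relation.ReflTransGen (Step D Z s) T T' → IsMin Z s T' y M

theorem Stab.reach {D : V → V → Prop} {Z : Finset V} {s : ℕ} {T T' : V → V → Prop} {y : V}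
    {M : Finset V} (h : Stab D Z s T y M) (hs : Relation.ReflTransGen (Step D Z s) T T') :
    Stab D Z s T' y M := fun T'' h'' => h T'' (hs.trans h'')

theorem Out.reach {D : V → V → Prop} {Z : Finset V} {s : ℕ} {T T' : V → V → Prop} {y : V}
    (hT : MinGood D Z s T) (hy : Out Z s T y)
    (hs : Relation.ReflTransGen (Step D Z s) T T') : Out Z s T' y := by
  intro X hX
  rw [(hT.reach hs).2] at hX
  exact hy X hX

theorem Stab.rigid {D : V → V → Prop} {Z : Finset V} {s : ℕ} {T : V → V → Prop} {y : V}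
    {M : Finset V} (hT : MinGood D Z s T) (hy : Out Z s T y)
    (h : Stab D Z s T y M) : Rigid D Z s T M := by
  have h1 := h T Relation.ReflTransGen.refl
  refine ⟨h1.1, h1.2.2.1, ?_⟩
  intro T' h'
  have h2 := h T' h'
  have h3 := hy.ge h1.1 h1.2.1
  have h4 := (hy.reach hT h').ge h2.1 h2.2.1
  have := h1.2.2.1
  have := h2.2.2.1
  omega

/-- stable pairs -/
def StablePair (D : V → V → Prop) (Z : Finset V) (s : ℕ) (T : V → V → Prop)
    (L : Finset V) : Prop :=
  MinGood D Z s T ∧ L ⊆ Z ∧ ∀ y ∈ L, Out Z s T y ∧ ∃ M, Stab D Z s T y M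

theorem StablePair.reach {D : V → V → Prop} {Z : Finset V} {s : ℕ} {T T' : V → V → Prop}
    {L : Finset V} (h : StablePair D Z s T L)
    (hs : Relation.ReflTransGen (Step D Z s) T T') : StablePair D Z s T' L := by
  refine ⟨(h.1.reach hs).1, h.2.1, ?_⟩
  intro y hy
  obtain ⟨h1, M, hM⟩ := h.2.2 y hy
  exact ⟨h1.reach h.1 hs, M, hM.reach hs⟩

/-- a vertex of `Z` outside the tight sets which is never free can be added to a stable pair -/
theorem StablePair.extend {D : V → V → Prop} {Z : Finset V} {s : ℕ} {T : V → V → Prop}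
    {L : Finset V} (h : StablePair D Z s T L) {w : V} (hwZ : w ∈ Z) (hw : Out Z s T w)
    (hnf : ∀ T', Relation.ReflTransGen (Step D Z s) T T' → ¬ Free Z s T' w) :
    ∃ T', StablePair D Z s T' (insert w L) := by
  -- the smallest near-tight set of `w` along free flips
  have hex : ∀ T', Relation.ReflTransGen (Step D Z s) T T' → ∃ M, IsMin Z s T' w M :=
    fun T' h' => exists_isMin (hw.reach h.1 h') (hnf T' h')
  -- the possible cardinalities
  let P : ℕ → Prop := fun m => ∃ T' M, Relation.ReflTransGen (Step D Z s) T T' ∧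
    IsMin Z s T' w M ∧ M.card = m
  have hP : ∃ m, P m := by
    obtain ⟨M, hM⟩ := hex T Relation.ReflTransGen.refl
    exact ⟨M.card, T, M, Relation.ReflTransGen.refl, hM, rfl⟩
  have hbd : ∀ m, P m → m ≤ Fintype.card V := by
    rintro m ⟨T', M, -, -, rfl⟩
    exact card_le_univ M
  obtain ⟨m, hm, hmax⟩ : ∃ m, P m ∧ ∀ m', P m' → m' ≤ m := by
    refine ⟨Nat.findGreatest P (Fintype.card V), ?_, ?_⟩
    · obtain ⟨m, hm⟩ := hP
      exact Nat.findGreatest_spec (hbd m hm) hm
    · intro m' hm'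
      exact Nat.le_findGreatest (hbd m' hm') hm'
  obtain ⟨T', M, hreach, hM, hcard⟩ := hm
  refine ⟨T', ?_⟩
  have hs' := h.reach hreach
  have hmono : ∀ T'', Relation.ReflTransGen (Step D Z s) T' T'' → IsMin Z s T'' w M := by
    intro T'' h''
    induction h'' with
    | refl => exact hM
    | @tail T1 T2 h1 h2 ih =>
      obtain ⟨M', hM'⟩ := hex T2 (hreach.trans (h1.tail h2))
      have hsub := ih.mono h2 hM'.1 hM'.2.1 hM'.2.2.1
      have hle := hmax M'.card ⟨T2, M', hreach.trans (h1.tail h2), hM', rfl⟩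
      have heq := eq_of_subset_of_card_le hsub (by omega)
      rw [heq]
      exact hM'
  refine ⟨hs'.1, ?_, ?_⟩
  · intro y hy
    rcases mem_insert.1 hy with rfl | hy
    · exact hwZ
    · exact h.2.1 hy
  · intro y hy
    rcases mem_insert.1 hy with rfl | hy
    · exact ⟨hw.reach h.1 hreach, M, hmono⟩
    · exact hs'.2.2 y hy

/-- there is a stable pair which is closed under heads -/
theorem exists_closed {D : V → V → Prop} {Z : Finset V} {s : ℕ} {T : V → V → Prop}
    (hT : MinGood D Z s T) : ∃ T' L, StablePair D Z s T' L ∧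
      ∀ X, Rigid D Z s T' X → ∀ w ∈ Z, w ∉ X → w ∉ Nin T' X → (∃ p ∈ X, D w p) →
        Out Z s T' w → w ∈ L := by
  let P : ℕ → Prop := fun m => ∃ T' L, StablePair D Z s T' L ∧ L.card = m
  have hP : P 0 := ⟨T, ∅, ⟨hT, empty_subset _, by simp⟩, by simp⟩
  have hbd : ∀ m, P m → m ≤ Fintype.card V := by
    rintro m ⟨T', L, -, rfl⟩
    exact card_le_univ L
  obtain ⟨m, hm, hmax⟩ : ∃ m, P m ∧ ∀ m', P m' → m' ≤ m := by
    refine ⟨Nat.findGreatest P (Fintype.card V), ?_, ?_⟩
    · exact Nat.findGreatest_spec (Nat.zero_le _) hP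
    · intro m' hm'
      exact Nat.le_findGreatest (hbd m' hm') hm'
  obtain ⟨T', L, hTL, hcard⟩ := hm
  refine ⟨T', L, hTL, ?_⟩
  intro X hX w hwZ hwX hwN hp hw
  by_contra hwL
  obtain ⟨p, hp, hD⟩ := hp
  obtain ⟨T'', hT''⟩ := hTL.extend hwZ hw (fun T1 h1 =>
    hX.head_not_free (hTL.1.reach h1).1.1 h1 hwZ hwX hwN hp hD)
  have := hmax _ ⟨T'', insert w L, hT'', rfl⟩
  rw [card_insert_of_notMem hwL] at this
  omega

end Pool.MP0a002eH20
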